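import Pool.Agent.H442R2.EHI.Dft

/-!
A large-sieve type inequality for exponential sums in short windows.
-/

set_option autoImplicit false

namespace Pool.Agent.W81.R1

open Finset
open Pool.Agent.H469R2.NK (e norm_e e_add conj_e e_zero kusmin_landau_mono)
open Pool.Agent.H442R2.EHI (sum_e_range e_add_int e_int)

/-- number of pairs `j, j' < K` with `j - j' ≡ Δ` modulo `M` -/
def rr (M K : ℕ) (Δ : ℤ) : ℕ :=
  ((range K ×ˢ range K).filter (fun p : ℕ × ℕ => (M : ℤ) ∣ (p.1 : ℤ) - p.2 - Δ)).card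

lemma e_re_ge (t : ℝ) (h0 : 0 ≤ t) (h1 : t ≤ 1 / 8) : (1 / 2 : ℝ) ≤ (e t).re ^ 2 ∧ 0 ≤ (e t).re := by
  have hre : (e t).re = Real.cos (2 * Real.pi * t) := by
    unfold e
    rw [Complex.exp_re]
    simp
  have hpi := Real.pi_pos
  have h2 : Real.cos (Real.pi / 4) ≤ Real.cos (2 * Real.pi * t) := by
    apply Real.cos_le_cos_of_nonneg_of_le_pi
    · positivity
    · linarith
    · nlinarith
  rw [Real.cos_pi_div_four] at h2
  have hs : 0 ≤ √2 / 2 := by positivity
  rw [hre]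
  refine ⟨?_, hs.trans h2⟩
  calc (1 / 2 : ℝ) = (√2 / 2) ^ 2 := by
        rw [div_pow, Real.sq_sqrt (by norm_num)]; norm_num
    _ ≤ _ := by gcongr

/-- lower bound for the short Dirichlet kernel -/
lemma kernel_ge (M A K k : ℕ) (hM : 1 ≤ M) (hAK : 8 * A * K ≤ M) (hk : k < A) :
    (K : ℝ) ^ 2 / 2 ≤ ‖∑ j ∈ range K, e ((j : ℝ) * k / M)‖ ^ 2 := by
  have hM0 : (0 : ℝ) < M := by exact_mod_cast hM
  have hre : ∀ j ∈ range K, √2 / 2 ≤ (e ((j : ℝ) * k / M)).re := by
    intro j hj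
    rw [mem_range] at hj
    have h1 : (j : ℝ) * k / M ≤ 1 / 8 := by
      rw [div_le_iff₀ hM0]
      have h2 : 8 * (j * k) ≤ M := by
        calc 8 * (j * k) ≤ 8 * (K * A) := by gcongr
          _ = 8 * A * K := by ring
          _ ≤ M := hAK
      have h3 : 8 * ((j : ℝ) * k) ≤ M := by exact_mod_cast h2
      linarith
    obtain ⟨h2, h3⟩ := e_re_ge ((j : ℝ) * k / M) (by positivity) h1
    have h4 : (√2 / 2) ^ 2 ≤ (e ((j : ℝ) * k / M)).re ^ 2 := by
      rw [div_pow, Real.sq_sqrt (by norm_num)]; linarith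
    exact (abs_le_of_sq_le_sq' h4 h3).2
  have h1 : (K : ℝ) * (√2 / 2) ≤ (∑ j ∈ range K, e ((j : ℝ) * k / M)).re := by
    rw [Complex.re_sum]
    calc (K : ℝ) * (√2 / 2) = ∑ j ∈ range K, √2 / 2 := by simp
      _ ≤ _ := sum_le_sum hre
  have h2 : (∑ j ∈ range K, e ((j : ℝ) * k / M)).re ≤ ‖∑ j ∈ range K, e ((j : ℝ) * k / M)‖ :=
    (le_abs_self _).trans (Complex.abs_re_le_norm _)
  calc (K : ℝ) ^ 2 / 2 = ((K : ℝ) * (√2 / 2)) ^ 2 := by
        rw [mul_pow, div_pow, Real.sq_sqrt (by norm_num)]; ring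
    _ ≤ _ := by
        gcongr
        exact h1.trans h2

variable {ι : Type*}

/-- Parseval with multiplicities -/
lemma parseval_mult (I : Finset ι) (v : ι → ℤ) (b : ι → ℂ) (M K : ℕ) (hM : 1 ≤ M) :
    ((∑ k ∈ range M, ‖(∑ j ∈ range K, e ((j : ℝ) * k / M)) * ∑ i ∈ I, b i * e (-((v i : ℝ) * k / M))‖ ^ 2 : ℝ) : ℂ) =
      (M : ℂ) * ∑ i ∈ I, ∑ i' ∈ I, (b i * (starRingEnd ℂ) (b i')) * (rr M K (v i - v i') : ℂ) := by
  classical
  have e0 : ∀ k ∈ range M,
      ((‖(∑ j ∈ range K, e ((j : ℝ) * k / M)) * ∑ i ∈ I, b i * e (-((v i : ℝ) * k / M))‖ ^ 2 : ℝ) : ℂ) =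
      ∑ i ∈ I, ∑ i' ∈ I, ∑ p ∈ range K ×ˢ range K, (b i * (starRingEnd ℂ) (b i')) *
        e ((((p.1 : ℤ) - p.2 - (v i - v i') : ℤ) : ℝ) * k / M) := by
    intro k _
    have h1 : ∀ z : ℂ, ((‖z‖ ^ 2 : ℝ) : ℂ) = z * (starRingEnd ℂ) z := by
      intro z
      rw [Complex.mul_conj, Complex.normSq_eq_norm_sq]
    rw [h1, map_mul, map_sum, map_sum]
    rw [show ∀ a b c d : ℂ, a * b * (c * d) = (b * d) * (a * c) from fun a b c d => by ring]
    rw [sum_mul_sum, sum_mul_sum, ← sum_product' (range K) (range K), sum_mul]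
    refine sum_congr rfl fun i _ => ?_
    rw [sum_mul]
    refine sum_congr rfl fun i' _ => ?_
    rw [mul_sum]
    refine sum_congr rfl fun p _ => ?_
    rw [map_mul, conj_e, conj_e]
    have : e ((((p.1 : ℤ) - p.2 - (v i - v i') : ℤ) : ℝ) * k / M) =
        e (-((v i : ℝ) * k / M)) * e (-(-((v i' : ℝ) * k / M))) * (e ((p.1 : ℝ) * k / M) *
          e (-((p.2 : ℝ) * k / M))) := by
      rw [← e_add, ← e_add, ← e_add]; congr 1; push_cast; ring
    rw [this]; ring
  rw [Complex.ofReal_sum, sum_congr rfl e0, sum_comm, mul_sum]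
  refine sum_congr rfl fun i _ => ?_
  rw [sum_comm, mul_sum]
  refine sum_congr rfl fun i' _ => ?_
  rw [sum_comm]
  simp only [← mul_sum, sum_e_range M hM]
  rw [rr, card_filter]
  push_cast
  simp only [mul_sum]
  refine sum_congr rfl fun p _ => ?_
  split_ifs <;> ring

/-- the window inequality -/
theorem window (I : Finset ι) (v : ι → ℤ) (c : ι → ℂ) (M A K : ℕ) (hM : 1 ≤ M) (hK : 1 ≤ K)
    (hAK : 8 * A * K ≤ M) (s : ℤ) :
    ∑ k ∈ range A, ‖∑ i ∈ I, c i * e (-((v i : ℝ) * (s + k) / M))‖ ^ 2 ≤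
      (2 * (M : ℝ) / (K : ℝ) ^ 2) *
      ‖∑ i ∈ I, ∑ i' ∈ I, ((c i * e (-((v i : ℝ) * s / M))) *
        (starRingEnd ℂ) (c i' * e (-((v i' : ℝ) * s / M)))) * (rr M K (v i - v i') : ℂ)‖ := by
  have hK0 : (0 : ℝ) < (K : ℝ) ^ 2 := by positivity
  have hM0 : (0 : ℝ) < M := by exact_mod_cast hM
  set b : ι → ℂ := fun i => c i * e (-((v i : ℝ) * s / M)) with hb
  have h1 : ∀ k : ℕ, ∑ i ∈ I, c i * e (-((v i : ℝ) * (s + k) / M)) =
      ∑ i ∈ I, b i * e (-((v i : ℝ) * k / M)) := by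
    intro k
    refine sum_congr rfl fun i _ => ?_
    rw [hb]
    simp only
    rw [mul_assoc, ← e_add]
    congr 2
    ring
  have hAM : A ≤ M := by
    calc A ≤ 8 * A * K := by nlinarith
      _ ≤ M := hAK
  have h2 : ∑ k ∈ range A, ‖∑ i ∈ I, c i * e (-((v i : ℝ) * (s + k) / M))‖ ^ 2 ≤
      (2 / (K : ℝ) ^ 2) * ∑ k ∈ range M, ‖(∑ j ∈ range K, e ((j : ℝ) * k / M)) *
        ∑ i ∈ I, b i * e (-((v i : ℝ) * k / M))‖ ^ 2 := by
    rw [mul_sum]
    calc ∑ k ∈ range A, ‖∑ i ∈ I, c i * e (-((v i : ℝ) * (s + k) / M))‖ ^ 2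
        ≤ ∑ k ∈ range A, (2 / (K : ℝ) ^ 2) * ‖(∑ j ∈ range K, e ((j : ℝ) * k / M)) *
        ∑ i ∈ I, b i * e (-((v i : ℝ) * k / M))‖ ^ 2 := by
          refine sum_le_sum fun k hk => ?_
          rw [mem_range] at hk
          rw [h1, norm_mul, mul_pow]
          have h3 := kernel_ge M A K k hM hAK hk
          have h4 : 1 ≤ (2 / (K : ℝ) ^ 2) * ‖∑ j ∈ range K, e ((j : ℝ) * k / M)‖ ^ 2 := by
            rw [div_mul_eq_mul_div, le_div_iff₀ hK0]
            linarith
          calc ‖∑ i ∈ I, b i * e (-((v i : ℝ) * k / M))‖ ^ 2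
              = 1 * ‖∑ i ∈ I, b i * e (-((v i : ℝ) * k / M))‖ ^ 2 := (one_mul _).symm
            _ ≤ ((2 / (K : ℝ) ^ 2) * ‖∑ j ∈ range K, e ((j : ℝ) * k / M)‖ ^ 2) *
                ‖∑ i ∈ I, b i * e (-((v i : ℝ) * k / M))‖ ^ 2 := by gcongr
            _ = _ := by ring
      _ ≤ _ := by
          apply sum_le_sum_of_subset_of_nonneg
          · exact range_mono hAM
          · intro k _ _; positivity
  refine h2.trans (le_of_eq ?_)
  have h5 := parseval_mult I v b M K hM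
  have h6 : (∑ k ∈ range M, ‖(∑ j ∈ range K, e ((j : ℝ) * k / M)) *
        ∑ i ∈ I, b i * e (-((v i : ℝ) * k / M))‖ ^ 2) = M *
        ‖∑ i ∈ I, ∑ i' ∈ I, (b i * (starRingEnd ℂ) (b i')) * (rr M K (v i - v i') : ℂ)‖ := by
    have h7 : ‖((∑ k ∈ range M, ‖(∑ j ∈ range K, e ((j : ℝ) * k / M)) *
        ∑ i ∈ I, b i * e (-((v i : ℝ) * k / M))‖ ^ 2 : ℝ) : ℂ)‖ = ∑ k ∈ range M,
        ‖(∑ j ∈ range K, e ((j : ℝ) * k / M)) * ∑ i ∈ I, b i * e (-((v i : ℝ) * k / M))‖ ^ 2 := by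
      rw [Complex.norm_real, Real.norm_of_nonneg (sum_nonneg fun k _ => by positivity)]
    rw [← h7, h5, norm_mul]
    simp
  rw [h6]
  ring

lemma rr_le (M K : ℕ) (hKM : K ≤ M) (Δ : ℤ) : rr M K Δ ≤ K := by
  classical
  unfold rr
  calc _ ≤ (range K).card := by
        apply card_le_card_of_injOn (fun p : ℕ × ℕ => p.1)
        · intro p hp
          rw [mem_coe, mem_filter, mem_product] at hp
          exact hp.1.1
        · intro p hp p' hp' heq
          rw [mem_coe, mem_filter, mem_product, mem_range, mem_range] at hp hp'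
          simp only at heq
          obtain ⟨⟨a1, a2⟩, t, ht⟩ := hp
          obtain ⟨⟨b1, b2⟩, t', ht'⟩ := hp'
          have h1 : (p'.2 : ℤ) - p.2 = M * (t - t') := by
            rw [mul_sub, ← ht, ← ht', heq]; ring
          have h2 : t - t' = 0 := by
            by_contra hne
            rcases lt_or_gt_of_ne hne with h | h
            · have : (M : ℤ) * (t - t') ≤ -M := by nlinarith
              omega
            · have : (M : ℤ) ≤ M * (t - t') := by nlinarith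
              omega
          rw [h2, mul_zero] at h1
          exact Prod.ext heq (by omega)
    _ = K := card_range K

lemma rr_neg (M K : ℕ) (Δ : ℤ) : rr M K (-Δ) = rr M K Δ := by
  classical
  unfold rr
  apply card_bij (fun p _ => (p.2, p.1))
  · intro p hp
    rw [mem_filter, mem_product] at hp ⊢
    refine ⟨⟨hp.1.2, hp.1.1⟩, ?_⟩
    have h0 := (dvd_neg (α := ℤ)).2 hp.2
    have h1 : -((p.1 : ℤ) - p.2 - -Δ) = (p.2 : ℤ) - p.1 - Δ := by ring
    rw [h1] at h0
    exact h0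
  · intro p _ p' _ h
    simp only [Prod.mk.injEq] at h
    exact Prod.ext h.2 h.1
  · intro p hp
    rw [mem_filter, mem_product] at hp
    refine ⟨(p.2, p.1), ?_, rfl⟩
    rw [mem_filter, mem_product]
    refine ⟨⟨hp.1.2, hp.1.1⟩, ?_⟩
    have h0 := (dvd_neg (α := ℤ)).2 hp.2
    have h1 : -((p.1 : ℤ) - p.2 - Δ) = (p.2 : ℤ) - p.1 - -Δ := by ring
    rw [h1] at h0
    exact h0

/-- when no wrap-around is possible -/
lemma rr_eq (M K : ℕ) (Δ : ℤ) (h : Δ.natAbs + K ≤ M) : rr M K Δ =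
    ((range K).filter (fun j => Δ.natAbs ≤ j)).card := by
  classical
  have key : ∀ D : ℕ, D + K ≤ M → rr M K (D : ℤ) = ((range K).filter (fun j => D ≤ j)).card := by
    intro D hD
    unfold rr
    apply card_bij (fun p _ => p.1)
    · intro p hp
      rw [mem_filter, mem_product, mem_range, mem_range] at hp
      rw [mem_filter, mem_range]
      obtain ⟨⟨a1, a2⟩, t, ht⟩ := hp
      refine ⟨a1, ?_⟩
      have h2 : t = 0 := by
        by_contra hne
        rcases lt_or_gt_of_ne hne with h | h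
        · have : (M : ℤ) * t ≤ -M := by nlinarith
          omega
        · have : (M : ℤ) ≤ M * t := by nlinarith
          omega
      rw [h2, mul_zero] at ht
      omega
    · intro p hp p' hp' heq
      rw [mem_filter, mem_product, mem_range, mem_range] at hp hp'
      obtain ⟨⟨a1, a2⟩, t, ht⟩ := hp
      obtain ⟨⟨b1, b2⟩, t', ht'⟩ := hp'
      have h1 : (p'.2 : ℤ) - p.2 = M * (t - t') := by
        rw [mul_sub, ← ht, ← ht', heq]; ring
      have h2 : t - t' = 0 := by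
        by_contra hne
        rcases lt_or_gt_of_ne hne with h | h
        · have : (M : ℤ) * (t - t') ≤ -M := by nlinarith
          omega
        · have : (M : ℤ) ≤ M * (t - t') := by nlinarith
          omega
      rw [h2, mul_zero] at h1
      exact Prod.ext heq (by omega)
    · intro j hj
      rw [mem_filter, mem_range] at hj
      refine ⟨(j, j - D), ?_, rfl⟩
      rw [mem_filter, mem_product, mem_range, mem_range]
      refine ⟨⟨hj.1, by omega⟩, ?_⟩
      have : ((j : ℕ) : ℤ) - ((j - D : ℕ) : ℤ) - (D : ℤ) = 0 := by omega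
      rw [this]
      exact dvd_zero _
  rcases Int.natAbs_eq Δ with h1 | h1
  · have h2 := key Δ.natAbs h
    rw [← h1] at h2
    exact h2
  · have h2 := key Δ.natAbs h
    rw [← rr_neg, ← h1] at h2
    exact h2

end Pool.Agent.W81.R1
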