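import Pool.Agent.W80.EC.MainK

/-!
The truncated Euler product against the Hardy-Littlewood constant for one polynomial whose
discriminant is not exceptional.
-/

set_option autoImplicit false

namespace Pool.Agent.W81.R1

open Finset Polynomial Filter
open Pool.Agent.H442R2.EHI (evt_log_pow evt_log_ge)
open Pool.Agent.H300R2.BH
open Pool.Agent.H300R2.EC
open Pool.Agent.W80.EC

/-- the truncated product and the constant -/
theorem const_part (U E : ℕ) (hE3 : U + 10 ≤ E) : ∀ᶠ H : ℕ in atTop, ∀ a b c : ℤ, 1 ≤ a → a ≤ H →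
    Int.gcd (Int.gcd a b : ℤ) c = 1 → ¬ IsSquare (b ^ 2 - 4 * a * c) →
    ¬ (Even (a + b) ∧ Even c) → b ^ 2 - 4 * a * c ∈ Dset (5 * H ^ 2) →
    b ^ 2 - 4 * a * c ∉ Exc (U + 4) E H →
    ∃ C : ℝ, 0 < C ∧ Tendsto (fun N : ℕ => Pc a (b ^ 2 - 4 * a * c) N) atTop (nhds C) ∧
      1 / (2 * Real.log H) ≤ ep a b * C * Gf a b ∧
      |SS ⌊Real.log H ^ E⌋₊ (q2 a b c) - ep a b * C * Gf a b| ≤
        (ep a b * C * Gf a b) / (4 * Real.log H ^ U) := by
  set V : ℕ := U + 4 with hV
  filter_upwards [tail_nonexc V E (by omega), Pd_lower (E - 1),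
    evt_log_ge (2 ^ (U + 12)), evt_log_ge 100, eventually_ge_atTop 1]
    with H htail hPd hL2 hL100 hH1 a b c ha1 haH hgcd hsq hpar hdm hnexc
  rw [show E - 1 + 1 = E by omega] at hPd
  set L := Real.log H with hL
  have hL0 : 0 < L := by linarith
  have hL1 : 1 ≤ L := by linarith
  have hHr : (1 : ℝ) ≤ H := by exact_mod_cast hH1
  have hHp : (0 : ℝ) < H := by linarith
  set z := ⌊L ^ E⌋₊ with hz
  have ha0 : a ≠ 0 := by omega
  set D := b ^ 2 - 4 * a * c with hD
  obtain ⟨C, hc0, hclim, hcc⟩ := const_close a D ha0 hsq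
  -- parameters
  have hLE : L ^ (U + 10) ≤ L ^ E := pow_le_pow_right₀ hL1 hE3
  have hLE2 : 2 ≤ L ^ (U + 10) := by
    calc (2 : ℝ) ≤ L ^ 1 := by rw [pow_one]; linarith
      _ ≤ L ^ (U + 10) := pow_le_pow_right₀ hL1 (by omega)
  have hzl : L ^ (U + 10) / 2 ≤ z := by
    have h1 : L ^ E < z + 1 := Nat.lt_floor_add_one _
    linarith
  have hz1 : 1 ≤ z := by
    have : (1 : ℝ) ≤ z := by linarith
    exact_mod_cast this
  have hz2 : 2 ≤ z := by
    have h2 : (2 : ℝ) ≤ z := by
      refine le_trans ?_ hzl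
      have : 4 ≤ L ^ (U + 10) := by
        calc (4 : ℝ) ≤ L ^ 1 := by rw [pow_one]; linarith
          _ ≤ L ^ (U + 10) := pow_le_pow_right₀ hL1 (by omega)
      linarith
    exact_mod_cast h2
  have hzp : (0 : ℝ) < z := by exact_mod_cast hz1
  set ω : ℝ := (a.natAbs.primeFactors.card : ℝ) with hω
  have hω2 : ω ≤ 2 * L := omega_bound a ha0 H (abs_le.2 ⟨by omega, haH⟩)
  have hω0 : 0 ≤ ω := Nat.cast_nonneg _
  set q : ℝ := 1 / (32 * L ^ U) with hq
  have hq0 : 0 < q := by positivity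
  have hLU : 1 ≤ L ^ U := one_le_pow₀ hL1
  have hq32 : q ≤ 1 / 32 := by
    rw [hq]
    apply one_div_le_one_div_of_le (by norm_num)
    linarith
  have hs : (2 : ℝ) ^ (V + 1) / L ^ (V - 1) ≤ q := by
    rw [hq, div_le_div_iff₀ (by positivity) (by positivity), hV,
      show U + 4 - 1 = U + 3 by omega, one_mul]
    calc (2 : ℝ) ^ (U + 4 + 1) * (32 * L ^ U) = (2 ^ (U + 10)) * L ^ U := by
          rw [show U + 10 = (U + 4 + 1) + 5 by ring, pow_add 2 (U + 4 + 1) 5]
          norm_num
          ring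
      _ ≤ L * L ^ U := by
          gcongr
          refine le_trans ?_ hL2
          exact pow_le_pow_right₀ (by norm_num) (by omega)
      _ ≤ L ^ 3 * L ^ U := by
          gcongr
          nlinarith [pow_pos hL0 2]
      _ = L ^ (U + 3) := by ring
  have hLbig : 64 * (L + 4) ≤ L ^ 3 := by nlinarith [pow_pos hL0 2, sq_nonneg (L - 100)]
  have hωz : ω / z ≤ q := by
    rw [hq, div_le_div_iff₀ hzp (by positivity), one_mul]
    calc ω * (32 * L ^ U) ≤ (2 * L) * (32 * L ^ U) := by gcongr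
      _ = 64 * L * L ^ U := by ring
      _ ≤ (L ^ 3) * L ^ U := by gcongr; linarith
      _ ≤ L ^ (U + 10) / 2 := by
          rw [le_div_iff₀ (by norm_num)]
          calc L ^ 3 * L ^ U * 2 ≤ L ^ 3 * L ^ U * L ^ 7 := by
                gcongr
                calc (2 : ℝ) ≤ L ^ 1 := by rw [pow_one]; linarith
                  _ ≤ L ^ 7 := pow_le_pow_right₀ hL1 (by omega)
            _ = L ^ (U + 10) := by ring
      _ ≤ z := hzl
  have h4z : 4 / (z : ℝ) ≤ q := by
    rw [hq, div_le_div_iff₀ hzp (by positivity), one_mul]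
    calc 4 * (32 * L ^ U) = 128 * L ^ U := by ring
      _ ≤ (L ^ 3) * L ^ U := by gcongr; linarith
      _ ≤ L ^ (U + 10) / 2 := by
          rw [le_div_iff₀ (by norm_num)]
          calc L ^ 3 * L ^ U * 2 ≤ L ^ 3 * L ^ U * L ^ 7 := by
                gcongr
                calc (2 : ℝ) ≤ L ^ 1 := by rw [pow_one]; linarith
                  _ ≤ L ^ 7 := pow_le_pow_right₀ hL1 (by omega)
            _ = L ^ (U + 10) := by ring
      _ ≤ z := hzl
  have hT := hcc z (2 ^ (V + 1) / L ^ (V - 1)) hz1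
    (htail D hsq hdm hnexc) (by linarith)
  have hPd1 : |Pd a D 0 z - C| ≤ 6 * q * C := by
    refine hT.trans ?_
    apply mul_le_mul_of_nonneg_right _ hc0.le
    linarith
  obtain ⟨hg1, hg2⟩ := Pg_close a b ha0 z hz1 (by linarith)
  rw [← hω] at hg2
  have hPgpos : 1 ≤ Pg a b 0 z := Pg_ge _ _ _ _
  set F := q2 a b c with hF
  set P := Pd a D 0 z with hP
  set G := Pg a b 0 z with hG
  set g := Gf a b with hg
  have hg0 : 0 < g := by linarith
  have hcg : 0 < C * g := mul_pos hc0 hg0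
  have hPG : |P * G - C * g| ≤ 8 * q * (C * g) := by
    have e1 : P * G - C * g = (P - C) * G + C * (G - g) := by ring
    rw [e1]
    have e2 : |G - g| ≤ 2 * q * g := by
      rw [abs_sub_comm, abs_of_nonneg (by linarith)]
      have e3 : g - G ≤ G * (2 * (ω / z)) := by linarith
      refine e3.trans ?_
      calc G * (2 * (ω / z)) ≤ g * (2 * q) := by gcongr
        _ = 2 * q * g := by ring
    calc |(P - C) * G + C * (G - g)| ≤ |(P - C) * G| + |C * (G - g)| := abs_add_le _ _
      _ = |P - C| * G + C * |G - g| := by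
          rw [abs_mul, abs_mul, abs_of_pos hc0, abs_of_pos (by linarith : 0 < G)]
      _ ≤ (6 * q * C) * g + C * (2 * q * g) := by
          gcongr
      _ = 8 * q * (C * g) := by ring
  have hSS : SS z F = ep a b * (P * G) := by
    rw [hF, SS_quad (q2 a b c) a b c (q2_eval _ _ _) hgcd hpar z hz2]
    rfl
  set e := ep a b with he
  have he1 : 1 ≤ e := ep_ge _ _
  set S := e * C * g with hS
  have hSpos : 0 < S := by positivity
  have hSSc : |SS z F - S| ≤ 8 * q * S := by
    rw [hSS, hS]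
    have e1 : e * (P * G) - e * C * g = e * (P * G - C * g) := by ring
    rw [e1, abs_mul, abs_of_pos (by linarith : 0 < e)]
    calc e * |P * G - C * g| ≤ e * (8 * q * (C * g)) := by gcongr
      _ = 8 * q * (e * C * g) := by ring
  have hSSlow : 1 / L ≤ SS z F := by
    rw [hSS]
    have h1 := hPd a D
    have h2 : 0 < 1 / L := by positivity
    calc 1 / L ≤ P := h1
      _ = 1 * (P * 1) := by ring
      _ ≤ e * (P * G) := by
          have hP0 : 0 ≤ P := h2.le.trans h1
          gcongr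
  have hSlow : 1 / (2 * L) ≤ S := by
    have h1 := (abs_le.1 hSSc).2
    have h2 : SS z F ≤ (1 + 8 * q) * S := by linarith
    have h3 : (1 + 8 * q) * S ≤ 2 * S := by
      apply mul_le_mul_of_nonneg_right _ hSpos.le
      linarith
    have h4 : 1 / (2 * L) = (1 / L) / 2 := by rw [div_div, mul_comm]
    rw [h4]
    linarith
  refine ⟨C, hc0, hclim, hSlow, hSSc.trans (le_of_eq ?_)⟩
  rw [hq]
  field_simp
  ring

end Pool.Agent.W81.R1
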