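import Pool.Agent.W80.EC.ExcB

/-!
Exceptional discriminants in short intervals.
-/

set_option autoImplicit false

namespace Pool.Agent.W81.R1

open Finset Filter
open scoped Nat
open Pool.Agent.H300R2.EC
open Pool.Agent.W80.EC
open Pool.Agent.Helper919 (XX XX_mul XX_one XX_abs_le XX_sum_bound)
open Pool.Agent.H378R2.QG
open Pool.Agent.H386R2.Artin.T1 (cc cc_le)
open Pool.Agent.H442R2.EHI (evt_log_pow evt_log_ge)

open Classical in
/-- the number of `b` in a short interval with `a * b` a square -/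
theorem count_sq_short (Λ : ℕ) (a : ℤ) (ha : a ≠ 0) (S : Finset ℤ)
    (hS : ∀ b ∈ S, b ≠ 0) (hΛ : ∀ b ∈ S, ∀ b' ∈ S, b - b' ≤ Λ) :
    ((S.filter (fun b => IsSquare (a * b))).card : ℝ) ≤ Real.sqrt Λ + 1 := by
  obtain ⟨d, s, hds, hd⟩ := Nat.sq_mul_squarefree a.natAbs
  have ha' : 0 < a.natAbs := Int.natAbs_pos.2 ha
  have hs0 : 0 < s := by
    rcases Nat.eq_zero_or_pos s with h | h
    · rw [h] at hds; simp at hds; omega
    · exact h
  have hd0 : 0 < d := Nat.pos_of_ne_zero (fun h => by rw [h] at hd; exact not_squarefree_zero hd)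
  have hrep : ∀ b ∈ S.filter (fun b => IsSquare (a * b)), ∃ m : ℕ, b.natAbs = d * m ^ 2 ∧
      a.sign = b.sign := by
    intro b hb
    rw [mem_filter] at hb
    obtain ⟨hbS, c, hc⟩ := hb
    have hb0 := hS b hbS
    have h1 : a.natAbs * b.natAbs = c.natAbs ^ 2 := by
      rw [← Int.natAbs_mul, hc, Int.natAbs_mul, sq]
    have h2 : s ^ 2 ∣ c.natAbs ^ 2 := by
      rw [← h1, ← hds]
      exact ⟨d * b.natAbs, by ring⟩
    have h3 : s ∣ c.natAbs := (Nat.pow_dvd_pow_iff two_ne_zero).1 h2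
    obtain ⟨c', hc'⟩ := h3
    have h4 : d * b.natAbs = c' ^ 2 := by
      have : s ^ 2 * (d * b.natAbs) = s ^ 2 * c' ^ 2 := by
        calc s ^ 2 * (d * b.natAbs) = (s ^ 2 * d) * b.natAbs := by ring
          _ = c.natAbs ^ 2 := by rw [hds, h1]
          _ = s ^ 2 * c' ^ 2 := by rw [hc']; ring
      exact Nat.eq_of_mul_eq_mul_left (by positivity) this
    have h5 : d ∣ c' := by
      have h6 : d ∣ c' ^ 2 := ⟨b.natAbs, h4.symm⟩
      exact (hd.dvd_pow_iff_dvd two_ne_zero).1 h6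
    obtain ⟨m, hm⟩ := h5
    refine ⟨m, ?_, ?_⟩
    · have : d * b.natAbs = d * (d * m ^ 2) := by rw [h4, hm]; ring
      exact Nat.eq_of_mul_eq_mul_left hd0 this
    · have hab : 0 < a * b := by
        rcases lt_trichotomy 0 (a * b) with h | h | h
        · exact h
        · exfalso
          rcases mul_eq_zero.1 h.symm with h | h
          · exact ha h
          · exact hb0 h
        · exfalso
          rw [hc] at h
          nlinarith [mul_self_nonneg c]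
      rcases lt_or_gt_of_ne ha with h | h
      · have : b < 0 := by
          by_contra hcon
          have : 0 ≤ b := not_lt.1 hcon
          nlinarith
        rw [Int.sign_eq_neg_one_of_neg h, Int.sign_eq_neg_one_of_neg this]
      · have : 0 < b := by
          by_contra hcon
          have : b ≤ 0 := not_lt.1 hcon
          nlinarith
        rw [Int.sign_eq_one_of_pos h, Int.sign_eq_one_of_pos this]
  rcases (S.filter (fun b => IsSquare (a * b))).eq_empty_or_nonempty with he | hne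
  · rw [he, card_empty]
    have := Real.sqrt_nonneg (Λ : ℝ)
    push_cast
    linarith
  · obtain ⟨b0, hb0, hmin⟩ := exists_min_image _ (fun b : ℤ => b.natAbs) hne
    obtain ⟨m0, hm0, hs0'⟩ := hrep b0 hb0
    have hsub : S.filter (fun b => IsSquare (a * b)) ⊆
        (range (Nat.sqrt Λ + 1)).image (fun j : ℕ => a.sign * ((d * (m0 + j) ^ 2 : ℕ) : ℤ)) := by
      intro b hb
      obtain ⟨m, hm, hsb⟩ := hrep b hb
      have hle := hmin b hb
      rw [hm, hm0] at hle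
      have h1 : m0 ^ 2 ≤ m ^ 2 := Nat.le_of_mul_le_mul_left hle hd0
      have h2 : m0 ≤ m := (Nat.pow_le_pow_iff_left two_ne_zero).1 h1
      obtain ⟨j, rfl⟩ := Nat.exists_eq_add_of_le h2
      rw [mem_image]
      refine ⟨j, ?_, ?_⟩
      · rw [mem_range, Nat.lt_succ_iff, Nat.le_sqrt']
        have h3 : (b.natAbs : ℤ) - b0.natAbs ≤ Λ := by
          have hb1 := hΛ b (mem_filter.1 hb).1 b0 (mem_filter.1 hb0).1
          have hb2 := hΛ b0 (mem_filter.1 hb0).1 b (mem_filter.1 hb).1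
          omega
        rw [hm, hm0] at h3
        push_cast at h3
        have h4 : ((j : ℤ)) ^ 2 ≤ Λ := by
          have hd1 : (1 : ℤ) ≤ d := by exact_mod_cast hd0
          have hj0 : (0 : ℤ) ≤ j := Int.natCast_nonneg _
          have hm00 : (0 : ℤ) ≤ m0 := Int.natCast_nonneg _
          have h5 : (d : ℤ) * ((m0 : ℤ) + j) ^ 2 - d * (m0 : ℤ) ^ 2 = d * (2 * m0 * j + (j : ℤ) ^ 2) := by ring
          rw [h5] at h3
          have h6 : 0 ≤ 2 * (m0 : ℤ) * j + (j : ℤ) ^ 2 := by positivity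
          have h7 : 1 * (2 * (m0 : ℤ) * j + (j : ℤ) ^ 2) ≤ d * (2 * m0 * j + (j : ℤ) ^ 2) :=
            mul_le_mul_of_nonneg_right hd1 h6
          have h8 : 0 ≤ 2 * (m0 : ℤ) * j := by positivity
          linarith
        exact_mod_cast h4
      · change a.sign * ((d * (m0 + j) ^ 2 : ℕ) : ℤ) = b
        rw [← hm, hsb]
        exact Int.sign_mul_natAbs b
    have h1 := (card_le_card hsub).trans card_image_le
    rw [card_range] at h1
    calc ((S.filter (fun b => IsSquare (a * b))).card : ℝ) ≤ ((Nat.sqrt Λ + 1 : ℕ) : ℝ) := by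
          exact_mod_cast h1
      _ = (Nat.sqrt Λ : ℝ) + 1 := by push_cast; ring
      _ ≤ Real.sqrt Λ + 1 := by
          gcongr
          exact Real.nat_sqrt_le_real_sqrt

open Classical in
/-- large sieve for the `k`-th power of a block, with a bound for the square classes -/
theorem block_powR (M U V k : ℕ) (R : ℝ) (hR0 : 0 ≤ R) (hU : 1 ≤ U) (hUV : U ≤ V) (hk : 1 ≤ k) (E : Finset ℕ)
    (hE : ∀ q ∈ E, q.Prime ∧ U < q ∧ q ≤ V) (h1 : ∑ p ∈ E, (1 : ℝ) / p ≤ 1)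
    (δ : ℝ) (hδ : 0 < δ) (hc : 16 * (k ! : ℝ) * (M : ℝ) ^ 2 ≤ δ ^ (2 * k) * (U : ℝ) ^ k)
    (S : Finset ℤ) (hS : ∀ a ∈ S, a ≠ 0 ∧ |a| ≤ M ∧ δ ≤ |TE E a|)
    (hR : ∀ a ∈ S, ((S.filter (fun b => IsSquare (a * b))).card : ℝ) ≤ R) :
    (S.card : ℝ) ≤ 2 * (k ! : ℝ) * R * (1 + k * Real.log V) / δ ^ (2 * k) := by
  set l : ℝ := 1 + k * Real.log V with hl
  have hV1 : 1 ≤ V := by omega
  have hlogV : 0 ≤ Real.log V := Real.log_natCast_nonneg V
  have hl1 : 1 ≤ l := by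
    have : 0 ≤ (k : ℝ) * Real.log V := by positivity
    linarith
  have hU0 : (0 : ℝ) < U := by exact_mod_cast hU
  have hUk : (0 : ℝ) < (U : ℝ) ^ k := by positivity
  set w : ℤ → ℝ := fun a => if 0 ≤ (TE E a) ^ k then 1 else -1 with hw
  have hwabs : ∀ a, w a * (TE E a) ^ k = |TE E a| ^ k := by
    intro a
    rw [← abs_pow]
    simp only [hw]
    split_ifs with h
    · rw [one_mul, abs_of_nonneg h]
    · rw [abs_of_neg (not_le.1 h)]; ring
  have hw1 : ∀ a, |w a| ≤ 1 := by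
    intro a
    simp only [hw]
    split_ifs <;> simp
  set c : ℕ → ℝ := fun n => ∑ a ∈ S, w a * XX a n with hcdef
  set s : ℝ := (S.card : ℝ) with hs
  have hs0 : 0 ≤ s := by positivity
  set I := Ioc (U ^ k) (V ^ k) with hI
  -- first moment
  have g1 : δ ^ k * s ≤ ∑ n ∈ I, (cc E k n : ℝ) / n * c n := by
    have e1 : ∑ a ∈ S, δ ^ k ≤ ∑ a ∈ S, w a * (TE E a) ^ k := by
      apply sum_le_sum
      intro a ha
      rw [hwabs]
      exact pow_le_pow_left₀ hδ.le (hS a ha).2.2 k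
    rw [sum_const, nsmul_eq_mul] at e1
    have e2 : ∑ a ∈ S, w a * (TE E a) ^ k = ∑ n ∈ I, (cc E k n : ℝ) / n * c n := by
      simp_rw [TE_pow E U V k hE hk, hcdef, mul_sum]
      rw [sum_comm]
      apply sum_congr rfl
      intro n _
      apply sum_congr rfl
      intro a _
      ring
    rw [e2] at e1
    linarith
  have g2 : (∑ n ∈ I, (cc E k n : ℝ) / n * c n) ^ 2 ≤ (k ! : ℝ) * ∑ n ∈ I, (c n) ^ 2 / n := by
    have e1 : (∑ n ∈ I, (cc E k n : ℝ) / n * c n) ^ 2 ≤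
        (∑ n ∈ I, (cc E k n : ℝ) ^ 2 / n) * ∑ n ∈ I, (c n) ^ 2 / n := by
      apply sum_sq_le_sum_mul_sum_of_sq_eq_mul
      · intro i _; positivity
      · intro i _; positivity
      · intro i _
        ring
    refine e1.trans (mul_le_mul_of_nonneg_right (cc_harm E U V k hE hk h1) ?_)
    exact sum_nonneg fun i _ => by positivity
  -- expand
  have g3 : ∑ n ∈ I, (c n) ^ 2 / (n : ℝ)
      = ∑ a ∈ S, ∑ b ∈ S, w a * w b * ∑ n ∈ I, XX (a * b) n / n := by
    have e1 : ∀ n : ℕ, (c n) ^ 2 / (n : ℝ) = ∑ a ∈ S, ∑ b ∈ S, w a * w b * (XX (a * b) n / n) := by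
      intro n
      rw [sq, hcdef]
      simp only
      rw [sum_mul_sum, sum_div]
      apply sum_congr rfl
      intro a _
      rw [sum_div]
      apply sum_congr rfl
      intro b _
      rw [← QMx.XX_mul_left]
      ring
    simp_rw [e1, mul_sum]
    rw [sum_comm]
    apply sum_congr rfl
    intro a _
    rw [sum_comm]
  have hUVk : U ^ k ≤ V ^ k := Nat.pow_le_pow_left hUV k
  have hUk1 : 1 ≤ U ^ k := Nat.one_le_pow _ _ hU
  have g4 : ∀ a ∈ S, ∑ b ∈ S, w a * w b * ∑ n ∈ I, XX (a * b) n / (n : ℝ)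
      ≤ R * l + s * (8 * (M : ℝ) ^ 2 / (U : ℝ) ^ k) := by
    intro a ha
    have e1 : ∀ b ∈ S, w a * w b * ∑ n ∈ I, XX (a * b) n / (n : ℝ)
        ≤ (if IsSquare (a * b) then l else 0) + 8 * (M : ℝ) ^ 2 / (U : ℝ) ^ k := by
      intro b hb
      have e0 : w a * w b * ∑ n ∈ I, XX (a * b) n / (n : ℝ) ≤
          |∑ n ∈ I, XX (a * b) n / (n : ℝ)| := by
        refine (le_abs_self _).trans ?_
        rw [abs_mul, abs_mul]
        calc |w a| * |w b| * |∑ n ∈ I, XX (a * b) n / (n : ℝ)|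
            ≤ 1 * 1 * |∑ n ∈ I, XX (a * b) n / (n : ℝ)| := by
              gcongr
              · exact hw1 a
              · exact hw1 b
          _ = _ := by ring
      refine e0.trans ?_
      split_ifs with hsq
      · have f1 : |∑ n ∈ I, XX (a * b) n / (n : ℝ)| ≤ l := by
          refine (abs_sum_le_sum_abs _ _).trans ?_
          have f0 := QMx.harm (V ^ k) (Nat.one_le_pow _ _ hV1) (U ^ k)
          have f3 : (1 : ℝ) + Real.log ((V ^ k : ℕ) : ℝ) = l := by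
            rw [hl]; push_cast; rw [Real.log_pow]
          rw [f3] at f0
          refine le_trans ?_ f0
          apply sum_le_sum
          intro n _
          rw [abs_div, abs_of_nonneg (by positivity : (0 : ℝ) ≤ n)]
          apply div_le_div_of_nonneg_right _ (by positivity)
          exact XX_abs_le _ _
        have f2 : (0 : ℝ) ≤ 8 * (M : ℝ) ^ 2 / (U : ℝ) ^ k := by positivity
        linarith
      · rw [zero_add]
        have hab : a * b ≠ 0 := mul_ne_zero (hS a ha).1 (hS b hb).1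
        have hbd : (((a * b).natAbs : ℕ) : ℝ) ≤ (M : ℝ) ^ 2 := by
          have g1 : (((a * b).natAbs : ℕ) : ℝ) = |(a : ℝ)| * |(b : ℝ)| := by
            rw [Nat.cast_natAbs]
            push_cast
            rw [abs_mul]
          have g2 : |(a : ℝ)| ≤ M := by exact_mod_cast (hS a ha).2.1
          have g3 : |(b : ℝ)| ≤ M := by exact_mod_cast (hS b hb).2.1
          rw [g1, sq]
          exact mul_le_mul g2 g3 (abs_nonneg _) (by positivity)
        have f1 := abel_abs (fun n => XX (a * b) n) (4 * (M : ℝ) ^ 2)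
          (fun N => (XX_sum_bound (a * b) hab hsq N).trans (by linarith))
          (U ^ k) (V ^ k) hUk1 hUVk
        refine f1.trans (le_of_eq ?_)
        push_cast
        ring
    refine (sum_le_sum e1).trans ?_
    rw [sum_add_distrib, sum_const, nsmul_eq_mul, ← sum_filter, sum_const, nsmul_eq_mul]
    have e2 := hR a ha
    have e3 := mul_le_mul_of_nonneg_right e2 (by linarith : (0 : ℝ) ≤ l)
    linarith
  have g5 : ∑ n ∈ I, (c n) ^ 2 / (n : ℝ)
      ≤ s * (R * l + s * (8 * (M : ℝ) ^ 2 / (U : ℝ) ^ k)) := by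
    rw [g3]
    refine (sum_le_sum g4).trans ?_
    rw [sum_const, nsmul_eq_mul]
  have hkf : (0 : ℝ) < (k ! : ℝ) := by exact_mod_cast Nat.factorial_pos k
  have g6 : (δ ^ k * s) ^ 2 ≤
      (k ! : ℝ) * (s * (R * l + s * (8 * (M : ℝ) ^ 2 / (U : ℝ) ^ k))) := by
    have e1 : (δ ^ k * s) ^ 2 ≤ (∑ n ∈ I, (cc E k n : ℝ) / n * c n) ^ 2 :=
      pow_le_pow_left₀ (by positivity) g1 2
    exact e1.trans (g2.trans (mul_le_mul_of_nonneg_left g5 hkf.le))
  have g7 : (k ! : ℝ) * (8 * (M : ℝ) ^ 2 / (U : ℝ) ^ k) ≤ δ ^ (2 * k) / 2 := by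
    rw [← mul_div_assoc, div_le_iff₀ hUk]
    nlinarith
  have hδk : δ ^ (2 * k) = (δ ^ k) ^ 2 := by rw [mul_comm, pow_mul]
  rcases eq_or_lt_of_le hs0 with h0 | h0
  · rw [← h0]
    positivity
  · have h8 : δ ^ (2 * k) * s ≤ (k ! : ℝ) * R * l + δ ^ (2 * k) / 2 * s := by
      have e1 : s * (δ ^ (2 * k) * s) ≤ s * ((k ! : ℝ) * R * l +
          ((k ! : ℝ) * (8 * (M : ℝ) ^ 2 / (U : ℝ) ^ k)) * s) := by
        rw [hδk]
        nlinarith [g6]
      have e2 := le_of_mul_le_mul_left e1 h0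
      have e3 := mul_le_mul_of_nonneg_right g7 hs0
      linarith
    rw [le_div_iff₀ (by positivity)]
    nlinarith


open Classical in
/-- the bound for one block, with explicit parameters -/
lemma exc_block_short (V : ℕ) (H P k Λ : ℕ) (i : ℕ) (hH : 1 ≤ H) (hP : 1 ≤ P) (hk : 1 ≤ k)
    (hL : 0 < Real.log H)
    (hPk : (H : ℝ) ^ 10 ≤ (P : ℝ) ^ k)
    (hX : (k : ℝ) ^ k * ((Real.log H + i) ^ V) ^ (2 * k) ≤ (H : ℝ) ^ (1 / 8 : ℝ))
    (h400 : 400 ≤ (H : ℝ) ^ 5) (S0 : Finset ℤ) (hS0 : S0 ⊆ Dset (5 * H ^ 2))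
    (hΛ : ∀ b ∈ S0, ∀ b' ∈ S0, b - b' ≤ Λ) :
    ((S0.filter (fun D => 1 / (Real.log H + i) ^ V < |Sd D P (2 * P)|)).card : ℝ) ≤
      2 * (H : ℝ) ^ (1 / 8 : ℝ) * (Real.sqrt Λ + 1) * (1 + k * Real.log ((2 * P : ℕ) : ℝ)) := by
  have hHr : (1 : ℝ) ≤ H := by exact_mod_cast hH
  have hH0 : (0 : ℝ) < H := by linarith
  set A : ℝ := (Real.log H + i) ^ V with hA
  have hA0 : 0 < A := by positivity
  set E := (Ioc P (2 * P)).filter (fun p : ℕ => p.Prime ∧ p ≠ 2) with hE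
  set S := S0.filter (fun D => 1 / A < |Sd D P (2 * P)|) with hS
  have hkf : (k ! : ℝ) ≤ (k : ℝ) ^ k := by exact_mod_cast k.factorial_le_pow
  have hkf0 : (0 : ℝ) < (k ! : ℝ) := by exact_mod_cast k.factorial_pos
  have hX2 : (k ! : ℝ) * A ^ (2 * k) ≤ (H : ℝ) ^ (1 / 8 : ℝ) :=
    (mul_le_mul_of_nonneg_right hkf (by positivity)).trans hX
  have hH8 : (H : ℝ) ^ (1 / 8 : ℝ) ≤ H := by
    calc (H : ℝ) ^ (1 / 8 : ℝ) ≤ (H : ℝ) ^ (1 : ℝ) :=
          Real.rpow_le_rpow_of_exponent_le hHr (by norm_num)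
      _ = H := Real.rpow_one _
  have hδ : (1 / A) ^ (2 * k) = 1 / A ^ (2 * k) := by rw [div_pow, one_pow]
  have hSS : ∀ a ∈ S, a ∈ S0 ∧ a ≠ 0 ∧ |a| ≤ ((5 * H ^ 2 : ℕ) : ℤ) := by
    intro a ha
    rw [hS, mem_filter] at ha
    have h1 := hS0 ha.1
    unfold Dset at h1
    rw [mem_filter, mem_Icc] at h1
    exact ⟨ha.1, h1.2, abs_le.2 ⟨h1.1.1, h1.1.2⟩⟩
  have key := block_powR (5 * H ^ 2) P (2 * P) k (Real.sqrt Λ + 1) (by positivity) hP (by omega) hk E
    (fun q hq => by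
      rw [hE, mem_filter, mem_Ioc] at hq
      exact ⟨hq.2.1, hq.1.1, hq.1.2⟩) (harm_block P hP) (1 / A) (by positivity)
    (by
      rw [hδ, one_div, inv_mul_eq_div, le_div_iff₀ (by positivity)]
      refine le_trans ?_ hPk
      calc 16 * (k ! : ℝ) * ((5 * H ^ 2 : ℕ) : ℝ) ^ 2 * A ^ (2 * k)
          = 400 * (H : ℝ) ^ 4 * ((k ! : ℝ) * A ^ (2 * k)) := by push_cast; ring
        _ ≤ (H : ℝ) ^ 5 * (H : ℝ) ^ 4 * H := by
            gcongr
            exact hX2.trans hH8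
        _ = _ := by ring) S
    (fun a ha => by
      obtain ⟨h1, h2, h3⟩ := hSS a ha
      refine ⟨h2, h3, ?_⟩
      rw [hS, mem_filter] at ha
      rw [← Sd_eq_TE]
      exact ha.2.le)
    (fun a ha => count_sq_short Λ a (hSS a ha).2.1 S (fun b hb => (hSS b hb).2.1)
      (fun b hb b' hb' => hΛ b (hSS b hb).1 b' (hSS b' hb').1))
  refine key.trans ?_
  rw [hδ, div_div_eq_mul_div, div_one]
  have hlog : 0 ≤ Real.log ((2 * P : ℕ) : ℝ) := Real.log_natCast_nonneg _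
  calc 2 * (k ! : ℝ) * (Real.sqrt Λ + 1) *
        (1 + k * Real.log ((2 * P : ℕ) : ℝ)) * A ^ (2 * k)
      = 2 * ((k ! : ℝ) * A ^ (2 * k)) * (Real.sqrt Λ + 1) *
        (1 + k * Real.log ((2 * P : ℕ) : ℝ)) := by ring
    _ ≤ 2 * (H : ℝ) ^ (1 / 8 : ℝ) * (Real.sqrt Λ + 1) * (1 + k * Real.log ((2 * P : ℕ) : ℝ)) := by
        gcongr

open Classical in
/-- there are few exceptional discriminants in short intervals -/
theorem exc_card_short (V E : ℕ) (hE : 320 * (4 * V + 1) ≤ E) : ∀ᶠ H : ℕ in atTop,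
    ∀ (S0 : Finset ℤ) (Λ : ℕ), S0 ⊆ Dset (5 * H ^ 2) → (∀ b ∈ S0, ∀ b' ∈ S0, b - b' ≤ Λ) →
    ((S0.filter (fun D => D ∈ Exc V E H)).card : ℝ) ≤ (Real.sqrt Λ + 1) * (H : ℝ) ^ (17 / 64 : ℝ) := by
  set θ : ℝ := 1 / (16 * ((V : ℝ) + 1)) with hθ
  have hV0 : (0 : ℝ) ≤ V := Nat.cast_nonneg _
  have hθ0 : 0 < θ := by positivity
  have hθ16 : θ ≤ 1 / 16 := by
    rw [hθ]
    apply one_div_le_one_div_of_le (by norm_num)
    nlinarith
  filter_upwards [exc_param V E hE, evt_log_ge (E + 16), evt_log_pow 3 (1 / 64) (by norm_num),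
    eventually_ge_atTop 4, evt_log_pow (E + 1) (1 / 16 : ℝ) (by norm_num)]
    with H hpar hL16 hL3 hH4 hLE16 S0 Λ hS0 hΛ
  have hE0 : (0 : ℝ) ≤ E := Nat.cast_nonneg _
  set L := Real.log H with hL
  have hL0 : 0 < L := by linarith
  have hHr : (4 : ℝ) ≤ H := by exact_mod_cast hH4
  have hH0 : (0 : ℝ) < H := by linarith
  set z := ⌊L ^ E⌋₊ with hz
  set I := ⌊(H : ℝ) ^ θ⌋₊ with hI
  set Sf : ℕ → Finset ℤ := fun i => S0.filter
    (fun D => 1 / (L + i) ^ V < |Sd D (z * 2 ^ i) (2 * (z * 2 ^ i))|) with hSf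
  have hsub : S0.filter (fun D => D ∈ Exc V E H) ⊆ (range (I + 1)).biUnion Sf := by
    intro D hD
    rw [mem_filter] at hD
    obtain ⟨hD0, hD⟩ := hD
    unfold Exc at hD
    rw [mem_filter] at hD
    obtain ⟨h1, i, h2, h3⟩ := hD
    rw [mem_biUnion]
    refine ⟨i, ?_, ?_⟩
    · rw [mem_range, Nat.lt_succ_iff]
      exact Nat.le_floor h2
    · rw [hSf]
      simp only
      rw [mem_filter]
      exact ⟨hD0, h3⟩
  have hz1 : 1 ≤ z := by
    rw [hz, Nat.one_le_floor_iff]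
    exact one_le_pow₀ (by linarith)
  have hzL : (z : ℝ) ≤ L ^ E := Nat.floor_le (by positivity)
  have hH64 : (1 : ℝ) ≤ (H : ℝ) ^ (1 / 64 : ℝ) := Real.one_le_rpow (by linarith) (by norm_num)
  have hI2 : (I : ℝ) + 1 ≤ 2 * (H : ℝ) ^ (1 / 16 : ℝ) := by
    have h1 : (I : ℝ) ≤ (H : ℝ) ^ θ := Nat.floor_le (by positivity)
    have h2 : (H : ℝ) ^ θ ≤ (H : ℝ) ^ (1 / 16 : ℝ) :=
      Real.rpow_le_rpow_of_exponent_le (by linarith) hθ16
    have h3 : (1 : ℝ) ≤ (H : ℝ) ^ (1 / 16 : ℝ) := Real.one_le_rpow (by linarith) (by norm_num)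
    linarith
  have hone : ∀ i ∈ range (I + 1), ((Sf i).card : ℝ) ≤
      2 * (H : ℝ) ^ (1 / 8 : ℝ) * (Real.sqrt Λ + 1) * (L * (4 * (H : ℝ) ^ (1 / 16 : ℝ))) := by
    intro i hi
    rw [mem_range, Nat.lt_succ_iff] at hi
    have hiθ : (i : ℝ) ≤ (H : ℝ) ^ θ := (Nat.le_floor_iff (by positivity)).1 hi
    obtain ⟨k, hk1, hkL, hk2, hk3⟩ := hpar i hiθ
    have h400 : 400 ≤ (H : ℝ) ^ 5 := by
      calc (400 : ℝ) ≤ 4 ^ 5 := by norm_num
        _ ≤ _ := pow_le_pow_left₀ (by norm_num) hHr 5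
    have key := exc_block_short V H (z * 2 ^ i) k Λ i (by omega) (Nat.mul_pos hz1 (by positivity)) hk1 hL0
      hk2 hk3 h400 S0 hS0 hΛ
    refine key.trans ?_
    have hlogP : Real.log ((2 * (z * 2 ^ i) : ℕ) : ℝ) ≤ 3 * (H : ℝ) ^ (1 / 16 : ℝ) := by
      have hzr : (1 : ℝ) ≤ z := by exact_mod_cast hz1
      have e1 : ((2 * (z * 2 ^ i) : ℕ) : ℝ) = 2 ^ (i + 1) * z := by push_cast; ring
      rw [e1, Real.log_mul (by positivity) (by positivity), Real.log_pow]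
      have h2 := Real.log_two_lt_d9
      have h2' := Real.log_two_gt_d9
      have h3 : Real.log z ≤ (H : ℝ) ^ (1 / 16 : ℝ) := by
        calc Real.log z ≤ z - 1 := Real.log_le_sub_one_of_pos (by linarith)
          _ ≤ L ^ E := by linarith
          _ ≤ L ^ (E + 1) := pow_le_pow_right₀ (by linarith) (by omega)
          _ ≤ _ := hLE16
      have h4 : (H : ℝ) ^ θ ≤ (H : ℝ) ^ (1 / 16 : ℝ) :=
        Real.rpow_le_rpow_of_exponent_le (by linarith) hθ16
      have h5 : (1 : ℝ) ≤ (H : ℝ) ^ (1 / 16 : ℝ) := Real.one_le_rpow (by linarith) (by norm_num)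
      push_cast
      nlinarith
    have h5 : (1 : ℝ) ≤ (H : ℝ) ^ (1 / 16 : ℝ) := Real.one_le_rpow (by linarith) (by norm_num)
    have h6 : 1 + (k : ℝ) * Real.log ((2 * (z * 2 ^ i) : ℕ) : ℝ) ≤
        L * (4 * (H : ℝ) ^ (1 / 16 : ℝ)) := by
      calc 1 + (k : ℝ) * Real.log ((2 * (z * 2 ^ i) : ℕ) : ℝ)
          ≤ L * (H : ℝ) ^ (1 / 16 : ℝ) + L * (3 * (H : ℝ) ^ (1 / 16 : ℝ)) := by
            apply add_le_add
            · nlinarith
            · exact mul_le_mul hkL hlogP (Real.log_natCast_nonneg _) hL0.le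
        _ = _ := by ring
    gcongr
  have hcard : ((S0.filter (fun D => D ∈ Exc V E H)).card : ℝ) ≤ ∑ i ∈ range (I + 1), ((Sf i).card : ℝ) := by
    exact_mod_cast (card_le_card hsub).trans card_biUnion_le
  refine hcard.trans ((sum_le_sum hone).trans ?_)
  rw [sum_const, card_range, nsmul_eq_mul]
  push_cast
  have hLle : 16 * L ≤ (H : ℝ) ^ (1 / 64 : ℝ) := by
    refine le_trans ?_ hL3
    nlinarith [sq_nonneg L, pow_pos hL0 3]
  calc ((I : ℝ) + 1) * (2 * (H : ℝ) ^ (1 / 8 : ℝ) * (Real.sqrt Λ + 1) * (L * (4 * (H : ℝ) ^ (1 / 16 : ℝ))))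
      ≤ (2 * (H : ℝ) ^ (1 / 16 : ℝ)) *
        (2 * (H : ℝ) ^ (1 / 8 : ℝ) * (Real.sqrt Λ + 1) * (L * (4 * (H : ℝ) ^ (1 / 16 : ℝ)))) := by
        gcongr
    _ = (Real.sqrt Λ + 1) * ((16 * L) * ((H : ℝ) ^ (1 / 16 : ℝ) * (H : ℝ) ^ (1 / 8 : ℝ) *
          (H : ℝ) ^ (1 / 16 : ℝ))) := by ring
    _ = (Real.sqrt Λ + 1) * ((16 * L) * (H : ℝ) ^ (1 / 4 : ℝ)) := by
        rw [← Real.rpow_add hH0, ← Real.rpow_add hH0]
        norm_num
    _ ≤ (Real.sqrt Λ + 1) * ((H : ℝ) ^ (1 / 64 : ℝ) * (H : ℝ) ^ (1 / 4 : ℝ)) := by gcongr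
    _ = (Real.sqrt Λ + 1) * (H : ℝ) ^ (17 / 64 : ℝ) := by
        rw [← Real.rpow_add hH0]
        norm_num

end Pool.Agent.W81.R1
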