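import Pool.Agent.W81.R1.Model
import Pool.Agent.W81.R1.ExcS
import Pool.Agent.W81.R1.Const

/-!
The prime values of quadratic polynomials for almost all constant terms in one short interval.
-/

set_option autoImplicit false

namespace Pool.Agent.W81.R1

open Finset Polynomial Filter
open Pool.Agent.H442R2.EHI (evt_log_pow evt_log_ge)
open Pool.Agent.H300R2.BH (rho SS pv lF)
open Pool.Agent.H300R2.EC
open Pool.Agent.W80.EC

lemma lF_le (F : ℤ[X]) (y : ℕ) : 0 ≤ lF F y ∧ lF F y ≤ 2 * y := by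
  have hlog2 : 1 / 2 ≤ Real.log 2 := by have := Real.log_two_gt_d9; linarith
  have hterm : ∀ n ∈ (Icc 1 y).filter (fun k : ℕ => 2 ≤ F.eval (k : ℤ)),
      0 ≤ 1 / Real.log ((F.eval (n : ℤ) : ℤ) : ℝ) ∧
      1 / Real.log ((F.eval (n : ℤ) : ℤ) : ℝ) ≤ 2 := by
    intro n hn
    rw [mem_filter] at hn
    have h1 : (2 : ℝ) ≤ ((F.eval (n : ℤ) : ℤ) : ℝ) := by exact_mod_cast hn.2
    have h2 := Real.log_le_log (by norm_num) h1
    have h3 : 0 < Real.log ((F.eval (n : ℤ) : ℤ) : ℝ) := by linarith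
    refine ⟨by positivity, ?_⟩
    rw [div_le_iff₀ h3]
    linarith
  unfold lF
  refine ⟨sum_nonneg fun n hn => (hterm n hn).1, ?_⟩
  refine (sum_le_sum fun n hn => (hterm n hn).2).trans ?_
  rw [sum_const, nsmul_eq_mul]
  have h1 : ((((Icc 1 y).filter (fun k : ℕ => 2 ≤ F.eval (k : ℤ))).card : ℕ) : ℝ) ≤ y := by
    have := card_filter_le (Icc 1 y) (fun k : ℕ => 2 ≤ F.eval (k : ℤ))
    rw [Nat.card_Icc, Nat.add_sub_cancel] at this
    exact_mod_cast this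
  linarith

/-- the conclusion for one polynomial -/
def Good (a b c : ℤ) (x U : ℕ) : Prop :=
  ∃ C : ℝ, 0 < C ∧ Tendsto (fun N : ℕ => Pc a (b ^ 2 - 4 * a * c) N) atTop (nhds C) ∧
    1 / (4 * Real.log x) ≤ ep a b * C * Gf a b ∧
    ∀ y ≤ x, |pv (q2 a b c) y - (ep a b * C * Gf a b) * lF (q2 a b c) y| ≤
      (ep a b * C * Gf a b) * (x / Real.log x ^ U)

open Classical in
/-- the exceptional discriminants in one block -/
lemma bad2_card (V E C U : ℕ) (hE : 320 * (4 * V + 1) ≤ E) : ∀ᶠ x : ℕ in atTop,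
    ∀ (a : ℕ) (b c0 : ℤ) (A H : ℕ), 1 ≤ a → (a : ℝ) ≤ Real.log x ^ C → x ≤ A → x ≤ H →
      (H : ℝ) ≤ (x : ℝ) ^ (5 / 4 : ℝ) →
      (∀ c ∈ Ioc c0 (c0 + A), |b ^ 2 - 4 * a * c| ≤ 5 * (H : ℤ) ^ 2) →
      ((((Ioc c0 (c0 + A)).filter (fun c => ¬ IsSquare (b ^ 2 - 4 * a * c) ∧
        b ^ 2 - 4 * a * c ∈ Exc V E H)).card : ℕ) : ℝ) ≤ A / Real.log x ^ (U + 1) := by
  obtain ⟨H0, hH0⟩ := eventually_atTop.mp (exc_card_short V E hE)
  filter_upwards [eventually_ge_atTop H0, evt_log_ge 4, evt_log_pow (C + U + 2) (1 / 8) (by norm_num),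
    eventually_ge_atTop 1] with x hxH0 hL4 hLp hx1 a b c0 A H ha haC hxA hxH hH54 hD
  set L := Real.log x with hL
  have hL0 : 0 < L := by linarith
  have hL1 : 1 ≤ L := by linarith
  have hxr : (1 : ℝ) ≤ x := by exact_mod_cast hx1
  have hx0 : (0 : ℝ) < x := by linarith
  have hAr : (x : ℝ) ≤ A := by exact_mod_cast hxA
  have hA0 : (0 : ℝ) < A := by linarith
  have ha' : (1 : ℤ) ≤ a := by exact_mod_cast ha
  set S0 : Finset ℤ := ((Ioc c0 (c0 + A)).filter (fun c => ¬ IsSquare (b ^ 2 - 4 * a * c))).image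
    (fun c => b ^ 2 - 4 * a * c) with hS0
  have hS0D : S0 ⊆ Dset (5 * H ^ 2) := by
    intro D hDm
    rw [hS0, mem_image] at hDm
    obtain ⟨c, hc, rfl⟩ := hDm
    rw [mem_filter] at hc
    unfold Dset
    rw [mem_filter, mem_Icc]
    have h1 := abs_le.1 (hD c hc.1)
    push_cast
    refine ⟨h1, ?_⟩
    intro h0
    apply hc.2
    rw [h0]
    exact ⟨0, rfl⟩
  have hΛ : ∀ d ∈ S0, ∀ d' ∈ S0, d - d' ≤ ((4 * a * A : ℕ) : ℤ) := by
    intro d hd d' hd'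
    rw [hS0, mem_image] at hd hd'
    obtain ⟨c, hc, rfl⟩ := hd
    obtain ⟨c', hc', rfl⟩ := hd'
    rw [mem_filter, mem_Ioc] at hc hc'
    push_cast
    have h1 : c' - c ≤ A := by linarith [hc.1.1, hc'.1.2]
    have h2 : (4 * (a : ℤ)) * (c' - c) ≤ (4 * a) * A := mul_le_mul_of_nonneg_left h1 (by linarith)
    linarith
  have key := hH0 H (hxH0.trans hxH) S0 (4 * a * A) hS0D hΛ
  have hinj : ((Ioc c0 (c0 + A)).filter (fun c => ¬ IsSquare (b ^ 2 - 4 * a * c) ∧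
        b ^ 2 - 4 * a * c ∈ Exc V E H)).card ≤ (S0.filter (fun D => D ∈ Exc V E H)).card := by
    apply card_le_card_of_injOn (fun c => b ^ 2 - 4 * a * c)
    · intro c hc
      rw [mem_coe, mem_filter] at hc
      rw [mem_coe, mem_filter, hS0, mem_image]
      exact ⟨⟨c, mem_filter.2 ⟨hc.1, hc.2.1⟩, rfl⟩, hc.2.2⟩
    · intro c _ c' _ h
      simp only at h
      have h1 : (4 * (a : ℤ)) * c = (4 * a) * c' := by linarith
      exact mul_left_cancel₀ (by omega) h1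
  refine le_trans (by exact_mod_cast hinj) (key.trans ?_)
  have hsqA : Real.sqrt A * Real.sqrt A = A := Real.mul_self_sqrt hA0.le
  have hsx : (x : ℝ) ^ (1 / 2 : ℝ) ≤ Real.sqrt A := by
    rw [← Real.sqrt_eq_rpow]
    exact Real.sqrt_le_sqrt hAr
  have hs1 : 1 ≤ Real.sqrt A := by
    rw [Real.one_le_sqrt]
    linarith
  have h1 : Real.sqrt ((4 * a * A : ℕ) : ℝ) ≤ 2 * L ^ C * Real.sqrt A := by
    apply Real.sqrt_le_iff.2
    refine ⟨by positivity, ?_⟩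
    push_cast
    have h2 : (a : ℝ) ≤ (L ^ C) ^ 2 := by
      refine haC.trans ?_
      have : 1 ≤ L ^ C := one_le_pow₀ hL1
      nlinarith
    calc 4 * (a : ℝ) * A ≤ 4 * (L ^ C) ^ 2 * A := by gcongr
      _ = 4 * (L ^ C) ^ 2 * (Real.sqrt A * Real.sqrt A) := by rw [hsqA]
      _ = _ := by ring
  have h2 : Real.sqrt ((4 * a * A : ℕ) : ℝ) + 1 ≤ 3 * L ^ C * Real.sqrt A := by
    have : 1 ≤ L ^ C := one_le_pow₀ hL1
    have h3 : 1 * 1 ≤ L ^ C * Real.sqrt A := mul_le_mul this hs1 (by norm_num) (by positivity)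
    linarith
  have h3 : (H : ℝ) ^ (17 / 64 : ℝ) ≤ (x : ℝ) ^ (3 / 8 : ℝ) := by
    calc (H : ℝ) ^ (17 / 64 : ℝ) ≤ ((x : ℝ) ^ (5 / 4 : ℝ)) ^ (17 / 64 : ℝ) :=
          Real.rpow_le_rpow (Nat.cast_nonneg _) hH54 (by norm_num)
      _ = (x : ℝ) ^ (85 / 256 : ℝ) := by rw [← Real.rpow_mul hx0.le]; norm_num
      _ ≤ (x : ℝ) ^ (3 / 8 : ℝ) := Real.rpow_le_rpow_of_exponent_le hxr (by norm_num)
  rw [le_div_iff₀ (by positivity)]
  calc (Real.sqrt ((4 * a * A : ℕ) : ℝ) + 1) * (H : ℝ) ^ (17 / 64 : ℝ) * L ^ (U + 1)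
      ≤ (3 * L ^ C * Real.sqrt A) * (x : ℝ) ^ (3 / 8 : ℝ) * L ^ (U + 1) := by gcongr
    _ = Real.sqrt A * ((3 * L ^ (C + U + 1)) * (x : ℝ) ^ (3 / 8 : ℝ)) := by ring
    _ ≤ Real.sqrt A * ((L * L ^ (C + U + 1)) * (x : ℝ) ^ (3 / 8 : ℝ)) := by gcongr; linarith
    _ = Real.sqrt A * (L ^ (C + U + 2) * (x : ℝ) ^ (3 / 8 : ℝ)) := by ring
    _ ≤ Real.sqrt A * ((x : ℝ) ^ (1 / 8 : ℝ) * (x : ℝ) ^ (3 / 8 : ℝ)) := by gcongr
    _ = Real.sqrt A * (x : ℝ) ^ (1 / 2 : ℝ) := by rw [← Real.rpow_add hx0]; norm_num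
    _ ≤ Real.sqrt A * Real.sqrt A := by gcongr
    _ = A := hsqA

open Classical in
/-- one block -/
theorem blk (C U : ℕ) : ∃ B : ℕ, ∀ᶠ x : ℕ in atTop, ∀ (a : ℕ) (b c0 : ℤ) (A : ℕ), 1 ≤ a →
    (a : ℝ) ≤ Real.log x ^ C → (|b| : ℝ) ≤ x / Real.log x ^ B →
    (|c0| : ℝ) ≤ (x : ℝ) ^ 2 * Real.log x ^ (C + 1) → x * Real.log x ^ B ≤ A →
    (A : ℝ) ≤ (x : ℝ) ^ (5 / 4 : ℝ) →
    ∃ Bad : Finset ℤ, (Bad.card : ℝ) ≤ A / Real.log x ^ U ∧ ∀ c ∈ Ioc c0 (c0 + A), c ∉ Bad →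
      Int.gcd (Int.gcd (a : ℤ) b : ℤ) c = 1 → ¬ IsSquare (b ^ 2 - 4 * a * c) →
      ¬ (Even ((a : ℤ) + b) ∧ Even c) → Good a b c x U := by
  obtain ⟨Bz, B1, hall⟩ := all_y C (C + 3) (U + 1) (U + 4)
  set E := max (Bz + 1) (320 * (4 * (U + 4) + 1)) + U + 10 with hE
  have hE1 : Bz + 1 ≤ E := by
    rw [hE]; have := le_max_left (Bz + 1) (320 * (4 * (U + 4) + 1)); omega
  have hE2 : 320 * (4 * (U + 4) + 1) ≤ E := by
    rw [hE]; have := le_max_right (Bz + 1) (320 * (4 * (U + 4) + 1)); omega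
  have hE3 : U + 10 ≤ E := by rw [hE]; omega
  clear_value E
  set B := max B1 (U + 5) with hB
  have hBB1 : B1 ≤ B := le_max_left _ _
  have hBU : U + 5 ≤ B := le_max_right _ _
  clear_value B
  obtain ⟨H1, hH1⟩ := eventually_atTop.mp (const_part U E hE3)
  have hbadE := bad2_card (U + 4) E C U hE2
  clear hE2 hE3 hE hB
  refine ⟨B, ?_⟩
  filter_upwards [hall (E + 1), pv_close (E + 1) (U + 2), hbadE,
    eventually_ge_atTop H1, evt_log_ge (2 ^ (E + 1)), evt_log_ge (2 * 3 ^ Bz), evt_log_ge 100,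
    evt_log_pow (C + 3) (1 / 4) (by norm_num), eventually_ge_atTop 4]
    with x hally hpvc hbad2 hxH1 hLE hLB hL100 hLp hx4 a b c0 A ha haC hb hc0 hA hA54
  set L := Real.log x with hL
  have hL0 : 0 < L := by linarith
  have hL1 : 1 ≤ L := by linarith
  have hp : ∀ n : ℕ, 0 < L ^ n := fun n => by positivity
  have hp1 : ∀ n : ℕ, 1 ≤ L ^ n := fun n => one_le_pow₀ hL1
  have hxr : (4 : ℝ) ≤ x := by exact_mod_cast hx4
  have hx0 : (0 : ℝ) < x := by linarith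
  have hxA : (x : ℝ) ≤ A := le_trans (by nlinarith [hp1 B]) hA
  have hxAn : x ≤ A := by exact_mod_cast hxA
  have hbx : (|b| : ℝ) ≤ x := by
    refine hb.trans ?_
    rw [div_le_iff₀ (hp _)]
    nlinarith [hp1 B]
  have hAx2 : (A : ℝ) ≤ (x : ℝ) ^ 2 := by
    refine hA54.trans ?_
    rw [← Real.rpow_natCast]
    exact Real.rpow_le_rpow_of_exponent_le (by linarith) (by norm_num)
  -- the constant term
  have hcb : ∀ c ∈ Ioc c0 (c0 + A), (|c| : ℝ) ≤ 2 * (x : ℝ) ^ 2 * L ^ (C + 1) := by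
    intro c hc
    rw [mem_Ioc] at hc
    have h1 : |c| ≤ |c0| + A := by
      have := abs_le.1 (le_refl |c0|)
      rw [abs_le]
      constructor <;> linarith
    have h2 : (|c| : ℝ) ≤ |(c0 : ℝ)| + A := by exact_mod_cast h1
    have h3 : (x : ℝ) ^ 2 * 1 ≤ (x : ℝ) ^ 2 * L ^ (C + 1) := by gcongr; exact hp1 _
    linarith
  -- N
  set N := ⌊(x : ℝ) ^ 2 * L ^ (C + 3)⌋₊ with hN
  have hNle : (N : ℝ) ≤ (x : ℝ) ^ 2 * L ^ (C + 3) := Nat.floor_le (by positivity)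
  have hNge : 4 * (x : ℝ) ^ 2 * L ^ (C + 1) ≤ N := by
    have h1 : (x : ℝ) ^ 2 * L ^ (C + 3) < N + 1 := Nat.lt_floor_add_one _
    have h2 : (x : ℝ) ^ 2 * L ^ (C + 3) = (x : ℝ) ^ 2 * L ^ (C + 1) * L ^ 2 := by ring
    have h3 : 5 ≤ L ^ 2 := by nlinarith
    have h4 : 1 ≤ (x : ℝ) ^ 2 * L ^ (C + 1) := by
      have : 1 ≤ (x : ℝ) ^ 2 := by nlinarith
      have h5 := hp1 (C + 1)
      nlinarith
    have h5 : (x : ℝ) ^ 2 * L ^ (C + 1) * 5 ≤ (x : ℝ) ^ 2 * L ^ (C + 1) * L ^ 2 := by gcongr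
    linarith
  have hxN : x ≤ N := by
    have : (x : ℝ) ≤ N := by
      refine le_trans ?_ hNge
      have h5 := hp1 (C + 1)
      calc (x : ℝ) ≤ 4 * x ^ 2 * 1 := by nlinarith
        _ ≤ 4 * x ^ 2 * L ^ (C + 1) := by gcongr
    exact_mod_cast this
  have hqf : ∀ n ∈ Ioc 0 x, |(qf a b n : ℝ)| ≤ 2 * (x : ℝ) ^ 2 * L ^ C := by
    intro n hn
    rw [mem_Ioc] at hn
    have hnx : (n : ℝ) ≤ x := by exact_mod_cast hn.2
    have hn0 : (0 : ℝ) ≤ n := Nat.cast_nonneg _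
    unfold qf
    push_cast
    calc |(a : ℝ) * (n : ℝ) ^ 2 + b * n| ≤ |(a : ℝ) * (n : ℝ) ^ 2| + |(b : ℝ) * n| := abs_add_le _ _
      _ = (a : ℝ) * (n : ℝ) ^ 2 + |(b : ℝ)| * n := by
          rw [abs_of_nonneg (by positivity), abs_mul, abs_of_nonneg hn0]
      _ ≤ L ^ C * (x : ℝ) ^ 2 + x * x := by gcongr
      _ ≤ L ^ C * (x : ℝ) ^ 2 + L ^ C * (x : ℝ) ^ 2 := by
          have := hp1 C
          have h6 : (0 : ℝ) ≤ (x : ℝ) ^ 2 := by positivity
          nlinarith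
      _ = _ := by ring
  have hval : ∀ c ∈ Ioc c0 (c0 + A), ∀ n ∈ Ioc 0 x, |qf a b n + c| ≤ N := by
    intro c hc n hn
    have h1 := hcb c hc
    have h2 := hqf n hn
    have h3 : |((qf a b n + c : ℤ) : ℝ)| ≤ N := by
      push_cast
      refine (abs_add_le _ _).trans (le_trans (add_le_add h2 h1) (le_trans ?_ hNge))
      have h4 : L ^ C ≤ L ^ (C + 1) := pow_le_pow_right₀ hL1 (by omega)
      have h5 : 2 * (x : ℝ) ^ 2 * L ^ C ≤ 2 * (x : ℝ) ^ 2 * L ^ (C + 1) := by gcongr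
      linarith
    exact_mod_cast h3
  -- H
  set H := ⌈(x : ℝ) * L ^ (C + 2)⌉₊ with hH
  have hHge : (x : ℝ) * L ^ (C + 2) ≤ H := Nat.le_ceil _
  have hHle : (H : ℝ) ≤ x * L ^ (C + 3) := by
    have h1 : (H : ℝ) < x * L ^ (C + 2) + 1 := Nat.ceil_lt_add_one (by positivity)
    have h2 : 1 ≤ (x : ℝ) * L ^ (C + 2) := by nlinarith [hp1 (C + 2)]
    calc (H : ℝ) ≤ 2 * (x * L ^ (C + 2)) := by linarith
      _ ≤ L * (x * L ^ (C + 2)) := by gcongr; linarith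
      _ = _ := by ring
  have hH54 : (H : ℝ) ≤ (x : ℝ) ^ (5 / 4 : ℝ) := by
    refine hHle.trans ?_
    calc (x : ℝ) * L ^ (C + 3) ≤ x * (x : ℝ) ^ (1 / 4 : ℝ) := by gcongr
      _ = (x : ℝ) ^ (1 : ℝ) * (x : ℝ) ^ (1 / 4 : ℝ) := by rw [Real.rpow_one]
      _ = (x : ℝ) ^ (5 / 4 : ℝ) := by rw [← Real.rpow_add hx0]; norm_num
  have hxH : x ≤ H := by
    have : (x : ℝ) ≤ H := le_trans (by nlinarith [hp1 (C + 2)]) hHge
    exact_mod_cast this
  have hxHr : (x : ℝ) ≤ H := by exact_mod_cast hxH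
  set M := Real.log H with hM
  have hLM : L ≤ M := Real.log_le_log hx0 hxHr
  have hM2 : M ≤ 2 * L := by
    have h1 := Real.log_le_log (by linarith) hH54
    rw [Real.log_rpow hx0] at h1
    linarith
  have hM0 : 0 < M := by linarith
  have hdisc : ∀ c ∈ Ioc c0 (c0 + A), |b ^ 2 - 4 * a * c| ≤ 5 * (H : ℤ) ^ 2 := by
    intro c hc
    have h1 := hcb c hc
    have h2 : |((b ^ 2 - 4 * a * c : ℤ) : ℝ)| ≤ 5 * (H : ℝ) ^ 2 := by
      push_cast
      have h3 : |(b : ℝ) ^ 2 - 4 * a * c| ≤ |(b : ℝ) ^ 2| + |4 * (a : ℝ) * c| := abs_sub _ _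
      have h4 : |(b : ℝ) ^ 2| ≤ (x : ℝ) ^ 2 := by
        rw [abs_pow]
        exact pow_le_pow_left₀ (abs_nonneg _) hbx 2
      have h5 : |4 * (a : ℝ) * c| ≤ 4 * L ^ C * (2 * (x : ℝ) ^ 2 * L ^ (C + 1)) := by
        rw [abs_mul, abs_of_nonneg (by positivity)]
        gcongr
      have h6 : (x * L ^ (C + 2)) ^ 2 ≤ (H : ℝ) ^ 2 := pow_le_pow_left₀ (by positivity) hHge 2
      have h7 : (x * L ^ (C + 2)) ^ 2 = (x : ℝ) ^ 2 * (L ^ (2 * C + 1) * L ^ 3) := by ring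
      have h8 : 4 * L ^ C * (2 * (x : ℝ) ^ 2 * L ^ (C + 1)) = (x : ℝ) ^ 2 * (8 * L ^ (2 * C + 1)) := by ring
      have h9 : (x : ℝ) ^ 2 * 1 ≤ (x : ℝ) ^ 2 * L ^ (2 * C + 1) := by gcongr; exact hp1 _
      have h10 : (x : ℝ) ^ 2 * (9 * L ^ (2 * C + 1)) ≤ (x : ℝ) ^ 2 * (L ^ (2 * C + 1) * L ^ 3) := by
        apply mul_le_mul_of_nonneg_left _ (by positivity)
        rw [mul_comm]
        apply mul_le_mul_of_nonneg_left _ (hp _).le
        calc (9 : ℝ) ≤ L ^ 1 := by rw [pow_one]; linarith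
          _ ≤ L ^ 3 := pow_le_pow_right₀ hL1 (by norm_num)
      have h11 : 0 ≤ (H : ℝ) ^ 2 := by positivity
      nlinarith
    exact_mod_cast h2
  -- z
  set z := ⌊M ^ E⌋₊ with hz
  have hzlo : (3 * L) ^ Bz ≤ z := by
    have h1 : M ^ E < z + 1 := Nat.lt_floor_add_one _
    have h2 : L ^ (Bz + 1) ≤ M ^ E := by
      calc L ^ (Bz + 1) ≤ L ^ E := pow_le_pow_right₀ hL1 hE1
        _ ≤ M ^ E := pow_le_pow_left₀ hL0.le hLM _
    have h3 : 2 * (3 * L) ^ Bz ≤ L ^ (Bz + 1) := by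
      calc 2 * (3 * L) ^ Bz = (2 * 3 ^ Bz) * L ^ Bz := by rw [mul_pow]; ring
        _ ≤ L * L ^ Bz := by gcongr
        _ = _ := by ring
    have h4 : 1 ≤ (3 * L) ^ Bz := one_le_pow₀ (by linarith)
    linarith
  have hzhi : (z : ℝ) ≤ L ^ (E + 1) := by
    calc (z : ℝ) ≤ M ^ E := Nat.floor_le (by positivity)
      _ ≤ (2 * L) ^ E := pow_le_pow_left₀ hM0.le hM2 _
      _ = 2 ^ E * L ^ E := by rw [mul_pow]
      _ ≤ L * L ^ E := by
          gcongr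
          refine le_trans ?_ hLE
          exact pow_le_pow_right₀ (by norm_num) (by omega)
      _ = L ^ (E + 1) := by ring
  have hz1 : 1 ≤ z := by
    have h4 : (1 : ℝ) ≤ (3 * L) ^ Bz := one_le_pow₀ (by linarith)
    exact_mod_cast h4.trans hzlo
  have hbB1 : (|b| : ℝ) ≤ x / L ^ B1 := by
    refine hb.trans ?_
    exact div_le_div_of_nonneg_left hx0.le (hp _) (pow_le_pow_right₀ hL1 hBB1)
  have hAB1 : x * L ^ B1 ≤ A := by
    refine le_trans ?_ hA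
    exact mul_le_mul_of_nonneg_left (pow_le_pow_right₀ hL1 hBB1) hx0.le
  obtain ⟨Bad1, hBad1, hgood⟩ := hally a b A N z (c0 + 1) ha haC hbB1 hAB1 hA54 hxN hNle
    (fun n hn k hk => hval _ (by rw [mem_Ioc]; constructor <;> push_cast <;> omega) n hn) hzlo hzhi
  set Bad2 := (Ioc c0 (c0 + A)).filter (fun c => ¬ IsSquare (b ^ 2 - 4 * a * c) ∧
    b ^ 2 - 4 * a * c ∈ Exc (U + 4) E H) with hBad2
  have hb2 := hbad2 a b c0 A H ha haC hxAn hxH hH54 hdisc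
  rw [← hBad2] at hb2
  refine ⟨Bad1.image (fun k : ℕ => c0 + 1 + (k : ℤ)) ∪ Bad2, ?_, ?_⟩
  · have h1 : (((Bad1.image (fun k : ℕ => c0 + 1 + (k : ℤ)) ∪ Bad2).card : ℕ) : ℝ) ≤ Bad1.card + Bad2.card := by
      have h2 := card_union_le (Bad1.image (fun k : ℕ => c0 + 1 + (k : ℤ))) Bad2
      have h3 := card_image_le (s := Bad1) (f := fun k : ℕ => c0 + 1 + (k : ℤ))
      have h4 : (Bad1.image (fun k : ℕ => c0 + 1 + (k : ℤ)) ∪ Bad2).card ≤ Bad1.card + Bad2.card := by omega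
      exact_mod_cast h4
    calc _ ≤ (Bad1.card : ℝ) + Bad2.card := h1
      _ ≤ A / L ^ (U + 1) + A / L ^ (U + 1) := add_le_add hBad1 hb2
      _ = 2 * A / L ^ (U + 1) := by ring
      _ ≤ A / L ^ U := by
          rw [div_le_div_iff₀ (by positivity) (by positivity), pow_succ]
          have : 0 ≤ (A : ℝ) * L ^ U := by positivity
          nlinarith
  · intro c hc hcB hgcd hsq hpar
    rw [mem_union, not_or] at hcB
    obtain ⟨hc1, hc2⟩ := hcB
    have hcI := mem_Ioc.1 hc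
    have hexc : b ^ 2 - 4 * a * c ∉ Exc (U + 4) E H := by
      intro hcon
      apply hc2
      rw [hBad2, mem_filter]
      exact ⟨hc, hsq, hcon⟩
    have hdm : b ^ 2 - 4 * a * c ∈ Dset (5 * H ^ 2) := by
      unfold Dset
      rw [mem_filter, mem_Icc]
      have h1 := abs_le.1 (hdisc c hc)
      push_cast
      refine ⟨h1, ?_⟩
      intro h0
      apply hsq
      rw [h0]
      exact ⟨0, rfl⟩
    have haH : (a : ℤ) ≤ H := by
      have h1 : (a : ℝ) ≤ H := by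
        refine haC.trans (le_trans ?_ hHge)
        have h2 : L ^ C ≤ L ^ (C + 2) := pow_le_pow_right₀ hL1 (by omega)
        nlinarith [hp1 (C + 2)]
      exact_mod_cast h1
    obtain ⟨Cc, hCc, hlim, hlow, hclose⟩ := hH1 H (hxH1.trans hxH) a b c (by exact_mod_cast ha) haH
      hgcd hsq hpar hdm hexc
    set k := (c - c0 - 1).toNat with hk
    have hkc : c0 + 1 + (k : ℤ) = c := by omega
    have hkA : k < A := by omega
    have hkB : k ∉ Bad1 := by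
      intro hcon
      apply hc1
      rw [mem_image]
      exact ⟨k, hcon, hkc⟩
    have hSc := hgood k hkA hkB
    rw [hkc] at hSc
    have hpv := hpvc a b c z ha (by
      refine hb.trans ?_
      exact div_le_div_of_nonneg_left hx0.le (hp _) (pow_le_pow_right₀ hL1 hBU)) hz1 hzhi hgcd hSc
    set S := ep a b * Cc * Gf a b with hS
    refine ⟨Cc, hCc, hlim, ?_, fun y hy => ?_⟩
    · refine le_trans ?_ hlow
      apply one_div_le_one_div_of_le (by linarith)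
      linarith
    · have hSlow : 1 / (4 * L) ≤ S := by
        refine le_trans ?_ hlow
        apply one_div_le_one_div_of_le (by linarith)
        linarith
      have hS0 : 0 < S := lt_of_lt_of_le (by positivity) hSlow
      obtain ⟨hl0, hl1⟩ := lF_le (q2 (a : ℤ) b c) y
      have hyx : (y : ℝ) ≤ x := by exact_mod_cast hy
      have e1 : pv (q2 (a : ℤ) b c) y - S * lF (q2 (a : ℤ) b c) y =
          (pv (q2 (a : ℤ) b c) y - SS z (q2 (a : ℤ) b c) * lF (q2 (a : ℤ) b c) y) +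
          (SS z (q2 (a : ℤ) b c) - S) * lF (q2 (a : ℤ) b c) y := by ring
      rw [← hS, e1]
      have t1 : (x : ℝ) / L ^ (U + 2) ≤ S * (x / L ^ U) / 2 := by
        have h1 : (1 / (4 * L)) * (x / L ^ U) / 2 ≤ S * (x / L ^ U) / 2 := by gcongr
        refine le_trans ?_ h1
        have h2 : (1 / (4 * L)) * ((x : ℝ) / L ^ U) / 2 = (x / L ^ U) * (1 / (8 * L)) := by
          field_simp
          norm_num
        have h3 : (x : ℝ) / L ^ (U + 2) = (x / L ^ U) * (1 / L ^ 2) := by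
          rw [pow_add]
          field_simp
        rw [h2, h3]
        gcongr
        nlinarith
      have t2 : |(SS z (q2 (a : ℤ) b c) - S) * lF (q2 (a : ℤ) b c) y| ≤ S * (x / L ^ U) / 2 := by
        rw [abs_mul, abs_of_nonneg hl0]
        calc |SS z (q2 (a : ℤ) b c) - S| * lF (q2 (a : ℤ) b c) y
            ≤ (S / (4 * M ^ U)) * (2 * x) := by
              apply mul_le_mul hclose (hl1.trans (by linarith)) hl0 (by positivity)
          _ ≤ (S / (4 * L ^ U)) * (2 * x) := by gcongr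
          _ = S * (x / L ^ U) / 2 := by
              field_simp
              norm_num
      calc _ ≤ |pv (q2 (a : ℤ) b c) y - SS z (q2 (a : ℤ) b c) * lF (q2 (a : ℤ) b c) y| +
            |(SS z (q2 (a : ℤ) b c) - S) * lF (q2 (a : ℤ) b c) y| := abs_add_le _ _
        _ ≤ S * (x / L ^ U) / 2 + S * (x / L ^ U) / 2 := add_le_add ((hpv y hy).trans t1) t2
        _ = _ := by ring

end Pool.Agent.W81.R1
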