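import Pool.Agent.W81.R1.Base

/-!
The window inequality on the physical side, for a convex sequence.
-/

set_option autoImplicit false

namespace Pool.Agent.W81.R1

open Finset
open Pool.Agent.H469R2.NK (e norm_e e_add conj_e e_zero kusmin_landau_mono)

lemma seg (x1 : ℕ) (P : ℕ → Prop) [DecidablePred P] (h : ∀ n, x1 < n → P (n + 1) → P n) :
    ∀ x : ℕ, ∃ m, (Ioc x1 x).filter P = Ioc x1 m ∧ (x1 < m → P m) := by
  intro x
  induction x with
  | zero => exact ⟨0, by simp, fun h => absurd h (by omega)⟩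
  | succ x ih =>
    by_cases h1 : x + 1 ≤ x1
    · refine ⟨x + 1, ?_, fun h => absurd h (by omega)⟩
      rw [Ioc_eq_empty (by omega)]
      simp
    · push Not at h1
      by_cases h2 : P (x + 1)
      · refine ⟨x + 1, ?_, fun _ => h2⟩
        have h3 : ∀ t, x1 < x + 1 - t → P (x + 1 - t) := by
          intro t
          induction t with
          | zero => intro _; simpa using h2
          | succ t iht =>
            intro ht
            apply h _ ht
            rw [show x + 1 - (t + 1) + 1 = x + 1 - t by omega]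
            exact iht (by omega)
        apply filter_true_of_mem
        intro n hn
        rw [mem_Ioc] at hn
        have := h3 (x + 1 - n) (by omega)
        rwa [show x + 1 - (x + 1 - n) = n by omega] at this
      · obtain ⟨m, hm1, hm2⟩ := ih
        refine ⟨m, ?_, hm2⟩
        rw [← hm1]
        ext n
        simp only [mem_filter, mem_Ioc]
        constructor
        · rintro ⟨⟨a, b⟩, c⟩
          refine ⟨⟨a, ?_⟩, c⟩
          by_contra hcon
          have : n = x + 1 := by omega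
          rw [this] at c
          exact h2 c
        · rintro ⟨⟨a, b⟩, c⟩
          exact ⟨⟨a, by omega⟩, c⟩

/-- one layer of the triangular weight -/
lemma layer (f : ℕ → ℤ) (x1 x Y : ℕ) (j : ℕ) (z : ℕ → ℂ) (hz : ∀ n, ‖z n‖ = 1)
    (hmono : ∀ l n : ℕ, x1 < n → f (n + l) - f n ≤ f (n + 1 + l) - f (n + 1))
    (hpos : ∀ n l : ℕ, x1 < n → 1 ≤ l → f n < f (n + l))
    (hY : ∀ n l : ℕ, x1 < n → Y < l → (j : ℤ) < f (n + l) - f n)
    (B : ℕ → ℝ) (hB0 : ∀ l, 0 ≤ B l)
    (hB : ∀ l ∈ Icc 1 Y, ∀ m, m + l ≤ x → ‖∑ n ∈ Ioc x1 m, z (n + l) * (starRingEnd ℂ) (z n)‖ ≤ B l) :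
    ‖∑ n ∈ Ioc x1 x, ∑ n' ∈ Ioc x1 x, if (f n - f n').natAbs ≤ j then z n * (starRingEnd ℂ) (z n') else 0‖ ≤
      x + 2 * ∑ l ∈ Icc 1 Y, B l := by
  classical
  set N := Ioc x1 x with hN
  set F : ℕ → ℕ → ℂ := fun n n' => if (f n - f n').natAbs ≤ j then z n * (starRingEnd ℂ) (z n') else 0
    with hF
  have hlt : ∀ n n' : ℕ, x1 < n' → n' < n → f n' < f n := by
    intro n n' h1 h2
    have := hpos n' (n - n') h1 (by omega)
    rwa [show n' + (n - n') = n by omega] at this
  -- upper part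
  have hup : ‖∑ n' ∈ N, ∑ n ∈ N, if n' < n then F n n' else 0‖ ≤ ∑ l ∈ Icc 1 Y, B l := by
    have e1 : ∀ n' ∈ N, (∑ n ∈ N, if n' < n then F n n' else 0) =
        ∑ l ∈ Icc 1 Y, if n' + l ≤ x ∧ f (n' + l) - f n' ≤ j then
          z (n' + l) * (starRingEnd ℂ) (z n') else 0 := by
      intro n' hn'
      rw [hN, mem_Ioc] at hn'
      rw [← sum_filter]
      have e2 : ∑ l ∈ (Icc 1 Y).filter (fun l => n' + l ≤ x ∧ f (n' + l) - f n' ≤ j),
          z (n' + l) * (starRingEnd ℂ) (z n') =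
          ∑ n ∈ ((Icc 1 Y).filter (fun l => n' + l ≤ x ∧ f (n' + l) - f n' ≤ j)).image (fun l => n' + l),
            z n * (starRingEnd ℂ) (z n') := by
        rw [sum_image]
        intro a _ b _ hab
        simp only at hab
        omega
      rw [← sum_filter (s := Icc 1 Y), e2]
      rw [hF]
      simp only
      rw [← sum_filter, filter_filter]
      apply sum_congr _ (fun _ _ => rfl)
      ext n
      rw [mem_filter, hN, mem_Ioc, mem_image]
      constructor
      · rintro ⟨⟨a1, a2⟩, a3, a4⟩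
        have h1 := hlt n n' hn'.1 a3
        have h2 : f n - f n' ≤ j := by omega
        refine ⟨n - n', ?_, by omega⟩
        rw [mem_filter, mem_Icc]
        have h3 : n' + (n - n') = n := by omega
        rw [h3]
        refine ⟨⟨by omega, ?_⟩, a2, h2⟩
        by_contra hcon
        push Not at hcon
        have := hY n' (n - n') hn'.1 hcon
        rw [h3] at this
        omega
      · rintro ⟨l, hl, rfl⟩
        rw [mem_filter, mem_Icc] at hl
        obtain ⟨⟨b1, b2⟩, b3, b4⟩ := hl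
        have h1 := hpos n' l hn'.1 b1
        refine ⟨⟨by omega, b3⟩, by omega, by omega⟩
    rw [sum_congr rfl e1, sum_comm]
    refine (norm_sum_le _ _).trans (sum_le_sum fun l hl => ?_)
    rw [← sum_filter, hN]
    obtain ⟨m, hm1, hm2⟩ := seg x1 (fun n' => n' + l ≤ x ∧ f (n' + l) - f n' ≤ j) (by
      intro n hn hP
      refine ⟨by omega, ?_⟩
      have := hmono l n hn
      omega) x
    rw [hm1]
    by_cases hmx : x1 < m
    · exact hB l hl m (hm2 hmx).1
    · rw [Ioc_eq_empty (by omega)]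
      simpa using hB0 l
  have hsplit : ∑ n ∈ N, ∑ n' ∈ N, F n n' = (∑ n ∈ N, F n n) +
      ((∑ n' ∈ N, ∑ n ∈ N, if n' < n then F n n' else 0) +
       (starRingEnd ℂ) (∑ n' ∈ N, ∑ n ∈ N, if n' < n then F n n' else 0)) := by
    have e1 : ∀ n ∈ N, ∑ n' ∈ N, F n n' = F n n + ((∑ n' ∈ N, if n' < n then F n n' else 0) +
        ∑ n' ∈ N, if n < n' then F n n' else 0) := by
      intro n hn
      have e2 : ∀ n' ∈ N, F n n' = (if n' = n then F n n' else 0) + ((if n' < n then F n n' else 0) +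
          if n < n' then F n n' else 0) := by
        intro n' _
        rcases lt_trichotomy n' n with h | h | h
        · rw [if_neg (by omega), if_pos h, if_neg (by omega)]; ring
        · rw [if_pos h, if_neg (by omega), if_neg (by omega)]; ring
        · rw [if_neg (by omega), if_neg (by omega), if_pos h]; ring
      rw [sum_congr rfl e2, sum_add_distrib, sum_add_distrib, sum_ite_eq' N n]
      rw [if_pos hn]
    rw [sum_congr rfl e1, sum_add_distrib, sum_add_distrib]
    congr 1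
    congr 1
    · rw [sum_comm]
    · rw [map_sum]
      refine sum_congr rfl fun n _ => ?_
      rw [map_sum]
      refine sum_congr rfl fun n' _ => ?_
      rw [apply_ite (starRingEnd ℂ), map_zero]
      split_ifs with h
      · rw [hF]
        simp only
        rw [apply_ite (starRingEnd ℂ), map_zero, map_mul, Complex.conj_conj]
        have : (f n' - f n).natAbs = (f n - f n').natAbs := by
          rw [← Int.natAbs_neg]; congr 1; ring
        rw [this]
        split_ifs
        · ring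
        · rfl
      · rfl
  rw [hsplit]
  have hdiag : ‖∑ n ∈ N, F n n‖ ≤ x := by
    calc ‖∑ n ∈ N, F n n‖ ≤ ∑ n ∈ N, ‖F n n‖ := norm_sum_le _ _
      _ ≤ ∑ n ∈ N, 1 := by
          refine sum_le_sum fun n _ => ?_
          rw [hF]
          simp only
          split_ifs
          · rw [norm_mul, RCLike.norm_conj, hz, mul_one]
          · simp
      _ = ((x - x1 : ℕ) : ℝ) := by rw [sum_const, hN, Nat.card_Ioc]; simp
      _ ≤ x := by exact_mod_cast Nat.sub_le _ _
  calc ‖(∑ n ∈ N, F n n) +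
      ((∑ n' ∈ N, ∑ n ∈ N, if n' < n then F n n' else 0) +
       (starRingEnd ℂ) (∑ n' ∈ N, ∑ n ∈ N, if n' < n then F n n' else 0))‖
      ≤ ‖∑ n ∈ N, F n n‖ + (‖∑ n' ∈ N, ∑ n ∈ N, if n' < n then F n n' else 0‖ +
        ‖(starRingEnd ℂ) (∑ n' ∈ N, ∑ n ∈ N, if n' < n then F n n' else 0)‖) :=
        (norm_add_le _ _).trans (by gcongr; exact norm_add_le _ _)
    _ ≤ x + (∑ l ∈ Icc 1 Y, B l + ∑ l ∈ Icc 1 Y, B l) := by
        rw [RCLike.norm_conj]
        gcongr
    _ = _ := by ring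

theorem time_side (M A K : ℕ) (hM : 1 ≤ M) (hA : 1 ≤ A) (hAK : 16 * A * K ≤ M)
    (f : ℕ → ℤ) (x1 x Y : ℕ)
    (hrange : ∀ n ∈ Ioc x1 x, ∀ n' ∈ Ioc x1 x, (f n - f n').natAbs + A ≤ M)
    (hmono : ∀ l n : ℕ, x1 < n → f (n + l) - f n ≤ f (n + 1 + l) - f (n + 1))
    (hpos : ∀ n l : ℕ, x1 < n → 1 ≤ l → f n < f (n + l))
    (hY : ∀ n l : ℕ, x1 < n → Y < l → (A : ℤ) ≤ f (n + l) - f n)
    (s : ℤ) (B : ℕ → ℝ) (hB0 : ∀ l, 0 ≤ B l)
    (hB : ∀ l ∈ Icc 1 Y, ∀ m, m + l ≤ x →
      ‖∑ n ∈ Ioc x1 m, e (-(((f (n + l) - f n : ℤ) : ℝ) * s / M))‖ ≤ B l) :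
    ∑ k ∈ range (2 * K), ‖∑ n ∈ Ioc x1 x, e (-((f n : ℝ) * (s + k) / M))‖ ^ 2 ≤
      (2 * (M : ℝ) / A) * (x + 2 * ∑ l ∈ Icc 1 Y, B l) := by
  classical
  have hA0 : (0 : ℝ) < A := by exact_mod_cast hA
  have h1 := window (Ioc x1 x) f (fun _ => 1) M (2 * K) A hM hA (by nlinarith) s
  simp only [one_mul] at h1
  refine h1.trans ?_
  set z : ℕ → ℂ := fun n => e (-((f n : ℝ) * s / M)) with hz
  have h2 : ∑ n ∈ Ioc x1 x, ∑ n' ∈ Ioc x1 x, (z n * (starRingEnd ℂ) (z n')) *
      (rr M A (f n - f n') : ℂ) = ∑ j ∈ range A, ∑ n ∈ Ioc x1 x, ∑ n' ∈ Ioc x1 x,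
        if (f n - f n').natAbs ≤ j then z n * (starRingEnd ℂ) (z n') else 0 := by
    rw [sum_comm (s := range A)]
    refine sum_congr rfl fun n hn => ?_
    rw [sum_comm (s := range A)]
    refine sum_congr rfl fun n' hn' => ?_
    rw [rr_eq M A _ (hrange n hn n' hn'), card_filter]
    push_cast
    rw [mul_sum]
    refine sum_congr rfl fun j _ => ?_
    split_ifs <;> simp
  rw [h2]
  have h3 : ‖∑ j ∈ range A, ∑ n ∈ Ioc x1 x, ∑ n' ∈ Ioc x1 x,
        if (f n - f n').natAbs ≤ j then z n * (starRingEnd ℂ) (z n') else 0‖ ≤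
      A * (x + 2 * ∑ l ∈ Icc 1 Y, B l) := by
    refine (norm_sum_le _ _).trans ?_
    calc ∑ j ∈ range A, ‖∑ n ∈ Ioc x1 x, ∑ n' ∈ Ioc x1 x,
        if (f n - f n').natAbs ≤ j then z n * (starRingEnd ℂ) (z n') else 0‖
        ≤ ∑ j ∈ range A, (x + 2 * ∑ l ∈ Icc 1 Y, B l) := by
          refine sum_le_sum fun j hj => ?_
          rw [mem_range] at hj
          apply layer f x1 x Y j z (fun n => norm_e _) hmono hpos _ B hB0
          · intro l hl m hm
            have h4 := hB l hl m hm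
            have h5 : ∑ n ∈ Ioc x1 m, z (n + l) * (starRingEnd ℂ) (z n) =
                ∑ n ∈ Ioc x1 m, e (-(((f (n + l) - f n : ℤ) : ℝ) * s / M)) := by
              refine sum_congr rfl fun n _ => ?_
              rw [hz]
              simp only
              rw [conj_e, ← e_add]
              congr 1
              push_cast
              ring
            rw [h5]
            exact h4
          · intro n l hn hl
            have := hY n l hn hl
            omega
      _ = _ := by rw [sum_const, card_range, nsmul_eq_mul]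
  calc (2 * (M : ℝ) / (A : ℝ) ^ 2) * ‖∑ j ∈ range A, ∑ n ∈ Ioc x1 x, ∑ n' ∈ Ioc x1 x,
        if (f n - f n').natAbs ≤ j then z n * (starRingEnd ℂ) (z n') else 0‖
      ≤ (2 * (M : ℝ) / (A : ℝ) ^ 2) * (A * (x + 2 * ∑ l ∈ Icc 1 Y, B l)) := by gcongr
    _ = _ := by field_simp

end Pool.Agent.W81.R1
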