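import Pool.Agent.W81.R1.Freq
import Pool.Agent.W81.R1.Time
import Pool.Agent.W81.R1.Arc
import Pool.Agent.H300R2.BH.DftF

/-!
The second moment in short intervals of shifts, quadratic polynomials, explicit form.
-/

set_option autoImplicit false

namespace Pool.Agent.W81.R1

open Finset
open Pool.Agent.H469R2.NK (e norm_e e_add conj_e e_zero kusmin_landau_mono norm_sum_neg)
open Pool.Agent.H442R2.EHI (sum_e_range e_add_int e_int)
open Pool.Agent.H300R2.BH (chf fz ch_inv ch_parseval)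

/-- the Weyl sum -/
noncomputable def WW (α : ℕ) (β : ℤ) (x1 x M : ℕ) (h : ℤ) : ℂ :=
  ∑ n ∈ Ioc x1 x, e (-((qf α β n : ℝ) * h / M))

lemma WW_per (α : ℕ) (β : ℤ) (x1 x M : ℕ) (hM : 1 ≤ M) (h : ℤ) :
    WW α β x1 x M (h + M) = WW α β x1 x M h := by
  unfold WW
  refine sum_congr rfl fun n _ => ?_
  have hM0 : (M : ℝ) ≠ 0 := by positivity
  have : -((qf α β n : ℝ) * ((h + M : ℤ) : ℝ) / M) = -((qf α β n : ℝ) * h / M) +
      ((-(qf α β n) : ℤ) : ℝ) := by
    push_cast; field_simp; ring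
  rw [this, e_add_int]

lemma WW_le (α : ℕ) (β : ℤ) (x1 x M : ℕ) (h : ℤ) : ‖WW α β x1 x M h‖ ≤ x := by
  unfold WW
  calc ‖∑ n ∈ Ioc x1 x, e (-((qf α β n : ℝ) * h / M))‖ ≤ ∑ n ∈ Ioc x1 x, 1 :=
        (norm_sum_le _ _).trans (sum_le_sum fun n _ => by rw [norm_e])
    _ = ((x - x1 : ℕ) : ℝ) := by rw [sum_const, Nat.card_Ioc]; simp
    _ ≤ x := by exact_mod_cast Nat.sub_le _ _

/-- tails of the sum of inverse squares -/
lemma tail_right (M : ℕ) (c P : ℝ) (hP : 1 ≤ P) :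
    ∑ h ∈ (range M).filter (fun h : ℕ => c + P ≤ h), 1 / ((h : ℝ) - c) ^ 2 ≤ 2 / P := by
  have hP0 : 0 < P := by linarith
  set F : ℕ → ℝ := fun h => if c + P ≤ h then 1 / ((h : ℝ) - c - 1 / 2) else 2 / P with hF
  have hFpos : ∀ h, 0 ≤ F h := by
    intro h
    rw [hF]
    simp only
    split_ifs with h1
    · apply div_nonneg zero_le_one; linarith
    · positivity
  have hFle : ∀ h, F h ≤ 2 / P := by
    intro h
    rw [hF]
    simp only
    split_ifs with h1
    · rw [div_le_div_iff₀ (by linarith) hP0]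
      linarith
    · exact le_rfl
  have key : ∀ h : ℕ, (if c + P ≤ (h : ℝ) then 1 / ((h : ℝ) - c) ^ 2 else 0) ≤ F h - F (h + 1) := by
    intro h
    split_ifs with h1
    · have h2 : c + P ≤ ((h + 1 : ℕ) : ℝ) := by push_cast; linarith
      rw [hF]
      simp only
      rw [if_pos h1, if_pos h2]
      push_cast
      have t1 : 0 < (h : ℝ) - c - 1 / 2 := by linarith
      have t2 : 0 < (h : ℝ) + 1 - c - 1 / 2 := by linarith
      have t3 : 0 < (h : ℝ) - c := by linarith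
      rw [div_sub_div _ _ t1.ne' t2.ne', div_le_div_iff₀ (by positivity) (by positivity)]
      nlinarith
    · by_cases h2 : c + P ≤ ((h + 1 : ℕ) : ℝ)
      · have := hFle (h + 1)
        have h3 : F h = 2 / P := by rw [hF]; simp only; rw [if_neg h1]
        linarith
      · have h3 : F h = 2 / P := by rw [hF]; simp only; rw [if_neg h1]
        have h4 : F (h + 1) = 2 / P := by rw [hF]; simp only; rw [if_neg h2]
        linarith
  rw [sum_filter]
  calc ∑ h ∈ range M, (if c + P ≤ (h : ℝ) then 1 / ((h : ℝ) - c) ^ 2 else 0)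
      ≤ ∑ h ∈ range M, (F h - F (h + 1)) := sum_le_sum fun h _ => key h
    _ = F 0 - F M := sum_range_sub' F M
    _ ≤ 2 / P := by linarith [hFpos M, hFle 0]

lemma tail_left (M : ℕ) (c P : ℝ) (hP : 1 ≤ P) :
    ∑ h ∈ (range M).filter (fun h : ℕ => (h : ℝ) ≤ c - P), 1 / ((h : ℝ) - c) ^ 2 ≤ 2 / P := by
  have hP0 : 0 < P := by linarith
  set F : ℕ → ℝ := fun h => if (h : ℝ) ≤ c - P + 1 then 1 / (c - (h : ℝ) + 1 / 2) else 2 / P with hF
  have hFpos : ∀ h, 0 ≤ F h := by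
    intro h
    rw [hF]
    simp only
    split_ifs with h1
    · apply div_nonneg zero_le_one; linarith
    · positivity
  have hFle : ∀ h, F h ≤ 2 / P := by
    intro h
    rw [hF]
    simp only
    split_ifs with h1
    · rw [div_le_div_iff₀ (by linarith) hP0]
      linarith
    · exact le_rfl
  have key : ∀ h : ℕ, (if (h : ℝ) ≤ c - P then 1 / ((h : ℝ) - c) ^ 2 else 0) ≤ F (h + 1) - F h := by
    intro h
    split_ifs with h1
    · have h2 : (h : ℝ) ≤ c - P + 1 := by linarith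
      have h3 : ((h + 1 : ℕ) : ℝ) ≤ c - P + 1 := by push_cast; linarith
      rw [hF]
      simp only
      rw [if_pos h2, if_pos h3]
      push_cast
      have t1 : 0 < c - (h : ℝ) + 1 / 2 := by linarith
      have t2 : 0 < c - ((h : ℝ) + 1) + 1 / 2 := by linarith
      have t3 : (h : ℝ) - c < 0 := by linarith
      have t4 : 0 < ((h : ℝ) - c) ^ 2 := by nlinarith
      rw [div_sub_div _ _ t2.ne' t1.ne', div_le_div_iff₀ t4 (by positivity)]
      nlinarith
    · by_cases h2 : (h : ℝ) ≤ c - P + 1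
      · by_cases h3 : ((h + 1 : ℕ) : ℝ) ≤ c - P + 1
        · exfalso; push_cast at h3; apply h1; linarith
        · have h4 : F (h + 1) = 2 / P := by rw [hF]; simp only; rw [if_neg h3]
          have := hFle h
          linarith
      · have h3 : ¬ ((h + 1 : ℕ) : ℝ) ≤ c - P + 1 := by push_cast; push Not at h2 ⊢; linarith
        have h4 : F (h + 1) = 2 / P := by rw [hF]; simp only; rw [if_neg h3]
        have h5 : F h = 2 / P := by rw [hF]; simp only; rw [if_neg h2]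
        linarith
  rw [sum_filter]
  calc ∑ h ∈ range M, (if (h : ℝ) ≤ c - P then 1 / ((h : ℝ) - c) ^ 2 else 0)
      ≤ ∑ h ∈ range M, (F (h + 1) - F h) := sum_le_sum fun h _ => key h
    _ = F M - F 0 := sum_range_sub F M
    _ ≤ 2 / P := by linarith [hFpos 0, hFle M]

/-- the contribution of one rational point -/
lemma one_arc (α : ℕ) (β : ℤ) (x1 x q M N : ℕ) (b : ℤ) (g : ℕ → ℂ) (G2 S0 δ δ1 : ℝ)
    (hα : 1 ≤ α) (hβ : |β| ≤ x1) (hM : 1 ≤ M) (hNM : N + 1 ≤ M)
    (hx1 : 1 ≤ x1) (hx1x : x1 ≤ x) (hq : 1 ≤ q) (hqx : q ≤ x)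
    (hsmall : δ * (q * (4 * α * x)) ≤ 1 / 2) (hδ1 : 0 < δ1) (hδ1M : 1 ≤ δ1 * M)
    (hG2 : ∑ n ∈ Icc 1 N, ‖g n‖ ^ 2 ≤ G2) (hS0 : 0 ≤ S0)
    (hsup : ∀ t : ℝ, ‖∑ n ∈ Icc 1 N, g n * e (n * t)‖ ≤ S0) :
    ∑ h ∈ (range M).filter (fun h : ℕ => |(h : ℝ) / M - b / q| ≤ δ), ‖chf g N M h‖ * ‖WW α β x1 x M h‖ ≤
      3 * δ1 * S0 * x + 4 * Real.sqrt (G2 / δ1) / x1 := by
  classical
  have hM0 : (0 : ℝ) < M := by exact_mod_cast hM
  have hx10 : (0 : ℝ) < x1 := by exact_mod_cast hx1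
  have hG20 : 0 ≤ G2 := le_trans (sum_nonneg fun n _ => by positivity) hG2
  have hch : ∀ h : ℤ, ‖chf g N M h‖ ≤ S0 / M := by
    intro h
    unfold chf
    rw [norm_mul, norm_div, norm_one, Complex.norm_natCast, one_div, inv_mul_eq_div]
    gcongr
    exact hsup _
  set c : ℝ := M * (b / q) with hc
  set P : ℝ := δ1 * M with hP
  have hd : ∀ h : ℕ, (h : ℝ) / M - b / q = ((h : ℝ) - c) / M := by
    intro h
    rw [hc]
    field_simp
  set S := (range M).filter (fun h : ℕ => |(h : ℝ) / M - b / q| ≤ δ) with hS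
  -- inner part
  have hin : ∑ h ∈ S.filter (fun h : ℕ => |(h : ℝ) - c| < P), ‖chf g N M h‖ * ‖WW α β x1 x M h‖ ≤
      3 * δ1 * S0 * x := by
    have hcard : (((S.filter (fun h : ℕ => |(h : ℝ) - c| < P)).card : ℕ) : ℝ) ≤ 2 * P + 1 := by
      have h1 : (S.filter (fun h : ℕ => |(h : ℝ) - c| < P)).image (fun h : ℕ => (h : ℤ)) ⊆
          Icc ⌈c - P⌉ ⌊c + P⌋ := by
        intro h hh
        rw [mem_image] at hh
        obtain ⟨k, hk, rfl⟩ := hh
        rw [mem_filter] at hk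
        have h2 := abs_lt.1 hk.2
        rw [mem_Icc]
        constructor
        · rw [Int.ceil_le]; push_cast; linarith
        · rw [Int.le_floor]; push_cast; linarith
      have h2 := card_le_card h1
      rw [card_image_of_injective _ Nat.cast_injective, Int.card_Icc] at h2
      have h3 : ((⌊c + P⌋ + 1 - ⌈c - P⌉).toNat : ℝ) ≤ 2 * P + 1 := by
        have h4 : ((⌊c + P⌋ + 1 - ⌈c - P⌉ : ℤ) : ℝ) ≤ 2 * P + 1 := by
          push_cast
          have := Int.floor_le (c + P)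
          have := Int.le_ceil (c - P)
          linarith
        rcases le_or_gt 0 (⌊c + P⌋ + 1 - ⌈c - P⌉) with h5 | h5
        · have : (((⌊c + P⌋ + 1 - ⌈c - P⌉).toNat : ℤ) : ℝ) = ((⌊c + P⌋ + 1 - ⌈c - P⌉ : ℤ) : ℝ) := by
            rw [Int.toNat_of_nonneg h5]
          have h6 : ((⌊c + P⌋ + 1 - ⌈c - P⌉).toNat : ℝ) = (((⌊c + P⌋ + 1 - ⌈c - P⌉).toNat : ℤ) : ℝ) :=
            (Int.cast_natCast _).symm
          rw [h6, this]
          exact h4
        · rw [Int.toNat_eq_zero.2 h5.le]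
          simp
          linarith
      calc _ ≤ ((⌊c + P⌋ + 1 - ⌈c - P⌉).toNat : ℝ) := by exact_mod_cast h2
        _ ≤ _ := h3
    calc ∑ h ∈ S.filter (fun h : ℕ => |(h : ℝ) - c| < P), ‖chf g N M h‖ * ‖WW α β x1 x M h‖
        ≤ ∑ h ∈ S.filter (fun h : ℕ => |(h : ℝ) - c| < P), (S0 / M) * x := by
          refine sum_le_sum fun h _ => ?_
          exact mul_le_mul (hch h) (WW_le _ _ _ _ _ _) (norm_nonneg _) (by positivity)
      _ = (((S.filter (fun h : ℕ => |(h : ℝ) - c| < P)).card : ℕ) : ℝ) * ((S0 / M) * x) := by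
          rw [sum_const, nsmul_eq_mul]
      _ ≤ (3 * P) * ((S0 / M) * x) := by
          gcongr
          linarith
      _ = _ := by rw [hP]; field_simp
  -- outer part
  have hout : ∑ h ∈ S.filter (fun h : ℕ => ¬ |(h : ℝ) - c| < P), ‖chf g N M h‖ * ‖WW α β x1 x M h‖ ≤
      4 * Real.sqrt (G2 / δ1) / x1 := by
    set S' := S.filter (fun h : ℕ => ¬ |(h : ℝ) - c| < P) with hS'
    have hP0 : 0 < P := by linarith
    have hW : ∀ h ∈ S', ‖WW α β x1 x M h‖ ^ 2 ≤ (4 * (M : ℝ) ^ 2 / (x1 : ℝ) ^ 2) * (1 / ((h : ℝ) - c) ^ 2) := by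
      intro h hh
      rw [hS', mem_filter, hS, mem_filter] at hh
      obtain ⟨⟨h1, h2⟩, h3⟩ := hh
      push Not at h3
      have hne : (h : ℝ) - c ≠ 0 := by
        intro h0; rw [h0, abs_zero] at h3; linarith
      have hb : ((h : ℝ) / M - b / q) ≠ 0 := by
        rw [hd]; exact div_ne_zero hne hM0.ne'
      have h4 := outer α β x1 x q b ((h : ℝ) / M - b / q) hα hβ hx1 hx1x hq hqx hb (by
        calc |(h : ℝ) / M - b / q| * (q * (4 * α * x)) ≤ δ * (q * (4 * α * x)) := by gcongr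
          _ ≤ 1 / 2 := hsmall)
      have h5 : WW α β x1 x M h = ∑ n ∈ Ioc x1 x, e (-((qf α β n : ℝ) * (b / q + ((h : ℝ) / M - b / q)))) := by
        unfold WW
        refine sum_congr rfl fun n _ => ?_
        congr 2
        have : (b : ℝ) / q + ((h : ℝ) / M - b / q) = h / M := by ring
        rw [this]
        push_cast
        ring
      rw [h5]
      calc ‖∑ n ∈ Ioc x1 x, e (-((qf α β n : ℝ) * (b / q + ((h : ℝ) / M - b / q))))‖ ^ 2
          ≤ (2 / (|(h : ℝ) / M - b / q| * x1)) ^ 2 := by gcongr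
        _ = _ := by
            rw [hd, div_pow, mul_pow, sq_abs, div_pow]
            field_simp
            ring
    have hsumW : ∑ h ∈ S', ‖WW α β x1 x M h‖ ^ 2 ≤ (4 * (M : ℝ) ^ 2 / (x1 : ℝ) ^ 2) * (4 / P) := by
      calc ∑ h ∈ S', ‖WW α β x1 x M h‖ ^ 2
          ≤ ∑ h ∈ S', (4 * (M : ℝ) ^ 2 / (x1 : ℝ) ^ 2) * (1 / ((h : ℝ) - c) ^ 2) := sum_le_sum hW
        _ = (4 * (M : ℝ) ^ 2 / (x1 : ℝ) ^ 2) * ∑ h ∈ S', 1 / ((h : ℝ) - c) ^ 2 := by rw [mul_sum]
        _ ≤ (4 * (M : ℝ) ^ 2 / (x1 : ℝ) ^ 2) * (4 / P) := by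
            gcongr
            have h6 : S' ⊆ ((range M).filter (fun h : ℕ => c + P ≤ h)) ∪
                ((range M).filter (fun h : ℕ => (h : ℝ) ≤ c - P)) := by
              intro h hh
              rw [hS', mem_filter, hS, mem_filter] at hh
              obtain ⟨⟨h1, h2⟩, h3⟩ := hh
              push Not at h3
              rw [mem_union, mem_filter, mem_filter]
              rcases le_abs.1 h3 with h4 | h4
              · left; exact ⟨h1, by linarith⟩
              · right; exact ⟨h1, by linarith⟩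
            calc ∑ h ∈ S', 1 / ((h : ℝ) - c) ^ 2
                ≤ ∑ h ∈ ((range M).filter (fun h : ℕ => c + P ≤ h)) ∪
                ((range M).filter (fun h : ℕ => (h : ℝ) ≤ c - P)), 1 / ((h : ℝ) - c) ^ 2 :=
                  sum_le_sum_of_subset_of_nonneg h6 (fun _ _ _ => by positivity)
              _ ≤ ∑ h ∈ (range M).filter (fun h : ℕ => c + P ≤ h), 1 / ((h : ℝ) - c) ^ 2 +
                ∑ h ∈ (range M).filter (fun h : ℕ => (h : ℝ) ≤ c - P), 1 / ((h : ℝ) - c) ^ 2 := by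
                  rw [← sum_union_inter]
                  have : 0 ≤ ∑ h ∈ ((range M).filter (fun h : ℕ => c + P ≤ h)) ∩
                    ((range M).filter (fun h : ℕ => (h : ℝ) ≤ c - P)), 1 / ((h : ℝ) - c) ^ 2 :=
                    sum_nonneg fun _ _ => by positivity
                  linarith
              _ ≤ 2 / P + 2 / P := add_le_add (tail_right M c P hδ1M) (tail_left M c P hδ1M)
              _ = 4 / P := by ring
    have hsumC : ∑ h ∈ S', ‖chf g N M h‖ ^ 2 ≤ G2 / M := by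
      rw [le_div_iff₀ hM0, mul_comm]
      calc (M : ℝ) * ∑ h ∈ S', ‖chf g N M h‖ ^ 2 ≤ M * ∑ h ∈ range M, ‖chf g N M h‖ ^ 2 := by
            gcongr
            exact (filter_subset _ _).trans (filter_subset _ _)
        _ = ∑ n ∈ Icc 1 N, ‖g n‖ ^ 2 := ch_parseval g N M hNM
        _ ≤ G2 := hG2
    have hcs : ∑ h ∈ S', ‖chf g N M h‖ * ‖WW α β x1 x M h‖ ≤
        Real.sqrt ((G2 / M) * ((4 * (M : ℝ) ^ 2 / (x1 : ℝ) ^ 2) * (4 / P))) := by
      apply Real.le_sqrt_of_sq_le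
      refine (sum_mul_sq_le_sq_mul_sq _ _ _).trans ?_
      exact mul_le_mul hsumC hsumW (sum_nonneg fun _ _ => by positivity) (by positivity)
    refine hcs.trans (le_of_eq ?_)
    have h7 : (G2 / M) * ((4 * (M : ℝ) ^ 2 / (x1 : ℝ) ^ 2) * (4 / P)) = (4 / x1) ^ 2 * (G2 / δ1) := by
      rw [hP]; field_simp
    rw [h7, Real.sqrt_mul (by positivity), Real.sqrt_sq (by positivity)]
    ring
  calc ∑ h ∈ S, ‖chf g N M h‖ * ‖WW α β x1 x M h‖
      = ∑ h ∈ S.filter (fun h : ℕ => |(h : ℝ) - c| < P), ‖chf g N M h‖ * ‖WW α β x1 x M h‖ +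
        ∑ h ∈ S.filter (fun h : ℕ => ¬ |(h : ℝ) - c| < P), ‖chf g N M h‖ * ‖WW α β x1 x M h‖ :=
        (sum_filter_add_sum_filter_not _ _ _).symm
    _ ≤ _ := add_le_add hin hout

end Pool.Agent.W81.R1
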