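import Pool.Agent.W81.R1.Core

/-!
The second moment in short intervals of shifts, quadratic polynomials, explicit form: assembly.
-/

set_option autoImplicit false

namespace Pool.Agent.W81.R1

open Finset
open Pool.Agent.H469R2.NK (e norm_e e_add conj_e e_zero kusmin_landau_mono norm_sum_neg)
open Pool.Agent.H442R2.EHI (sum_e_range e_add_int e_int)
open Pool.Agent.H300R2.BH (chf fz ch_inv ch_parseval)

/-- the minor arcs -/
lemma minor_T (α : ℕ) (β : ℤ) (x1 x A K : ℕ) (hα : 1 ≤ α) (hβ : |β| ≤ x1)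
    (hx1 : 1 ≤ x1) (hx1x : x1 ≤ x) (hA : x1 ≤ A) (hK : 1 ≤ K)
    (hrange : ∀ n ∈ Ioc x1 x, ∀ n' ∈ Ioc x1 x, (qf α β n - qf α β n').natAbs + A ≤ 16 * A * K)
    (D : ℝ) (hD : 1 ≤ D) (hxY : 2 * D * ((A / x1 : ℕ) : ℝ) + 2 * D * D < x)
    (Q : ℕ) (hQ : 4 * (α : ℝ) * D ≤ Q) (h : ℤ)
    (hmin : ¬ ∃ q : ℕ, 1 ≤ q ∧ q ≤ Q ∧ ∃ b : ℤ, |(h : ℝ) / (16 * A * K : ℕ) - b / q| ≤
      D ^ 2 / (x * ((A / x1 : ℕ) : ℝ)) + 1 / (16 * A)) :
    ∑ k ∈ range (2 * K), ‖WW α β x1 x (16 * A * K) (h - K + k)‖ ^ 2 ≤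
      (32 * (K : ℝ)) * (x + 5 * (x * ((A / x1 : ℕ) : ℝ)) / D) := by
  classical
  set M := 16 * A * K with hM
  set Y := A / x1 with hY
  have hA1 : 1 ≤ A := hx1.trans hA
  have hM1 : 1 ≤ M := by
    rw [hM]
    have : 1 ≤ A * K := Nat.mul_pos hA1 hK
    nlinarith
  have hM0 : (0 : ℝ) < M := by exact_mod_cast hM1
  have hY1 : 1 ≤ Y := (Nat.one_le_div_iff (by omega)).2 hA
  have hx : 0 < x := by omega
  have hx0 : (0 : ℝ) < x := by exact_mod_cast hx
  have hY0 : (0 : ℝ) < Y := by exact_mod_cast hY1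
  have hA0 : (0 : ℝ) < A := by exact_mod_cast hA1
  have hK0 : (0 : ℝ) < K := by exact_mod_cast hK
  have hD0 : 0 < D := by linarith
  have hα0 : (0 : ℝ) < α := by exact_mod_cast hα
  have hα1 : (1 : ℝ) ≤ α := by exact_mod_cast hα
  set s : ℤ := h - K with hs
  set θ : ℝ := 2 * α * s / M with hθ
  set B : ℕ → ℝ := fun l => if ∃ m : ℤ, |(l : ℝ) * θ - m| ≤ D / x then (x : ℝ) else 2 * x / D with hB
  have hB0 : ∀ l, 0 ≤ B l := by
    intro l
    rw [hB]; simp only; split_ifs <;> positivity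
  have hts := time_side M A K hM1 hA1 le_rfl (qf α β) x1 x Y hrange
    (by
      intro l n _
      rw [qf_diff, qf_diff]
      push_cast
      have : (0 : ℤ) ≤ 2 * α * l := by positivity
      linarith)
    (by
      intro n l hn hl
      have := (qf_diff_bounds α β x1 n l hα hβ hn).1
      have h1 : (0 : ℤ) < (l : ℤ) * n := by
        have : (0 : ℤ) < l := by exact_mod_cast hl
        have : (0 : ℤ) < n := by exact_mod_cast (by omega : 0 < n)
        positivity
      linarith)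
    (by
      intro n l hn hl
      have h1 := (qf_diff_bounds α β x1 n l hα hβ hn).1
      have h2 : A < x1 * (Y + 1) := by
        rw [hY]
        exact Nat.lt_mul_div_succ A (by omega)
      have h3 : (A : ℤ) ≤ (l : ℤ) * n := by
        have : A ≤ l * n := by
          calc A ≤ x1 * (Y + 1) := h2.le
            _ ≤ n * l := by gcongr <;> omega
            _ = l * n := mul_comm _ _
        exact_mod_cast this
      linarith)
    s B hB0
    (by
      intro l hl m _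
      have h1 : ∑ n ∈ Ioc x1 m, e (-(((qf α β (n + l) - qf α β n : ℤ) : ℝ) * s / M)) =
          ∑ n ∈ Ioc x1 m, e ((n : ℝ) * (-(l * θ)) + (-((α * (l : ℝ) ^ 2 + β * l) * s / M))) := by
        refine sum_congr rfl fun n _ => ?_
        congr 1
        rw [qf_diff, hθ]
        push_cast
        ring
      rw [h1]
      rw [hB]
      simp only
      split_ifs with h2
      · calc ‖∑ n ∈ Ioc x1 m, e ((n : ℝ) * (-(l * θ)) + (-((α * (l : ℝ) ^ 2 + β * l) * s / M)))‖
            ≤ ∑ n ∈ Ioc x1 m, 1 := (norm_sum_le _ _).trans (sum_le_sum fun n _ => by rw [norm_e])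
          _ = ((m - x1 : ℕ) : ℝ) := by rw [sum_const, Nat.card_Ioc]; simp
          _ ≤ x := by
              have : m - x1 ≤ x := by omega
              exact_mod_cast this
      · push Not at h2
        have h3 := geo (-(l * θ)) (-((α * (l : ℝ) ^ 2 + β * l) * s / M)) (D / x) (by positivity)
          (fun k => by
            have h4 := h2 (-k)
            have h5 : |-(l * θ) - (k : ℝ)| = |(l : ℝ) * θ - ((-k : ℤ) : ℝ)| := by
              rw [← abs_neg]; congr 1; push_cast; ring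
            rw [h5]
            exact h4.le) x1 m
        refine h3.trans (le_of_eq ?_)
        field_simp)
  -- bound for the sum of `B`
  set L := (Icc 1 Y).filter (fun l : ℕ => ∃ m : ℤ, |(l : ℝ) * θ - m| ≤ D / x) with hL
  have hLcard : ¬ ((Y : ℝ) ≤ 2 * D * L.card) := by
    intro hcard
    obtain ⟨q, hq1, hq2, b, hb⟩ := arc x Y D θ hD hx hY1 L (filter_subset _ _)
      (fun l hl => by rw [hL, mem_filter] at hl; exact hl.2) hcard hxY
    apply hmin
    have hq0 : (0 : ℝ) < q := by exact_mod_cast hq1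
    refine ⟨2 * α * q, by nlinarith [Nat.mul_pos hα hq1], ?_, b, ?_⟩
    · have : ((2 * α * q : ℕ) : ℝ) ≤ Q := by
        push_cast
        calc 2 * (α : ℝ) * q ≤ 2 * α * (2 * D) := by gcongr
          _ = 4 * α * D := by ring
          _ ≤ Q := hQ
      exact_mod_cast this
    · have h1 : (h : ℝ) / (M : ℝ) - b / ((2 * α * q : ℕ) : ℝ) = (θ - b / q) / (2 * α) + K / M := by
        rw [hθ, hs]
        push_cast
        field_simp
        ring
      rw [h1]
      have h2 : (K : ℝ) / M = 1 / (16 * A) := by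
        rw [hM]; push_cast; field_simp
      calc |(θ - b / q) / (2 * α) + (K : ℝ) / M| ≤ |(θ - b / q) / (2 * α)| + |(K : ℝ) / M| := abs_add_le _ _
        _ = |θ - b / q| / (2 * α) + 1 / (16 * A) := by
            rw [abs_div, abs_of_pos (by positivity : (0 : ℝ) < 2 * α), h2,
              abs_of_pos (by positivity : (0 : ℝ) < 1 / (16 * A))]
        _ ≤ (2 * D ^ 2 / (x * Y)) / (2 * 1) + 1 / (16 * A) := by gcongr
        _ = _ := by ring
  push Not at hLcard
  have hsumB : ∑ l ∈ Icc 1 Y, B l ≤ 5 / 2 * (x * Y) / D := by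
    have h1 : ∑ l ∈ Icc 1 Y, B l ≤ ∑ l ∈ Icc 1 Y, ((if l ∈ L then (x : ℝ) else 0) + 2 * x / D) := by
      refine sum_le_sum fun l hl => ?_
      rw [hB]
      simp only
      by_cases h2 : ∃ m : ℤ, |(l : ℝ) * θ - m| ≤ D / x
      · rw [if_pos h2, if_pos (by rw [hL, mem_filter]; exact ⟨hl, h2⟩)]
        have : 0 ≤ 2 * x / D := by positivity
        linarith
      · rw [if_neg h2]
        split_ifs
        · have : (0 : ℝ) ≤ x := by positivity
          linarith
        · linarith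
    refine h1.trans ?_
    rw [sum_add_distrib, sum_const, Nat.card_Icc, ← sum_filter, sum_const, nsmul_eq_mul, nsmul_eq_mul]
    have h3 : (Icc 1 Y).filter (fun l => l ∈ L) = L := by
      ext l
      rw [mem_filter]
      constructor
      · exact fun h => h.2
      · intro h
        exact ⟨(mem_filter.1 h).1, h⟩
    rw [h3, Nat.add_sub_cancel]
    have h4 : (L.card : ℝ) * x ≤ Y * x / (2 * D) := by
      rw [le_div_iff₀ (by positivity)]
      nlinarith
    calc (L.card : ℝ) * x + Y * (2 * x / D) ≤ Y * x / (2 * D) + Y * (2 * x / D) := by linarith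
      _ = _ := by field_simp; ring
  have hfin : ∑ k ∈ range (2 * K), ‖WW α β x1 x M (h - K + k)‖ ^ 2 ≤
      (2 * (M : ℝ) / A) * (x + 2 * ∑ l ∈ Icc 1 Y, B l) := by
    refine le_trans (le_of_eq ?_) hts
    refine sum_congr rfl fun k _ => ?_
    unfold WW
    congr 2
    refine sum_congr rfl fun n _ => ?_
    rw [hs]
    push_cast
    rfl
  refine hfin.trans ?_
  have h5 : 2 * (M : ℝ) / A = 32 * K := by
    rw [hM]; push_cast; field_simp; ring
  rw [h5]
  apply mul_le_mul_of_nonneg_left _ (by positivity)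
  calc (x : ℝ) + 2 * ∑ l ∈ Icc 1 Y, B l ≤ x + 2 * (5 / 2 * (x * Y) / D) := by gcongr
    _ = _ := by ring

lemma norm_add_sq_le' (u v : ℂ) : ‖u + v‖ ^ 2 ≤ 2 * ‖u‖ ^ 2 + 2 * ‖v‖ ^ 2 := by
  have h := norm_add_le u v
  have h1 : ‖u + v‖ ^ 2 ≤ (‖u‖ + ‖v‖) ^ 2 := by gcongr
  nlinarith [sq_nonneg (‖u‖ - ‖v‖)]

theorem short_core (α : ℕ) (β : ℤ) (x1 x A K N Q : ℕ) (a0 : ℤ) (g : ℕ → ℂ) (G2 S0 D δ1 : ℝ)
    (hα : 1 ≤ α) (hβ : |β| ≤ x1)
    (hx1 : 1 ≤ x1) (hx1x : x1 ≤ x) (hA : x1 ≤ A) (hK : 1 ≤ K)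
    (hg : ∀ n, N < n → g n = 0) (hNM : N + 1 ≤ 16 * A * K)
    (hval : ∀ n ∈ Ioc x1 x, ∀ k < A, (N : ℤ) - (16 * A * K : ℕ) < qf α β n + (a0 + k) ∧
      qf α β n + (a0 + k) ≤ (16 * A * K : ℕ))
    (hrange : ∀ n ∈ Ioc x1 x, ∀ n' ∈ Ioc x1 x, (qf α β n - qf α β n').natAbs + A ≤ 16 * A * K)
    (hD : 1 ≤ D) (hxY : 2 * D * ((A / x1 : ℕ) : ℝ) + 2 * D * D < x)
    (hQ : 4 * (α : ℝ) * D ≤ Q) (hQx : Q ≤ x)
    (hsmall : (D ^ 2 / (x * ((A / x1 : ℕ) : ℝ)) + 1 / (16 * A)) * (Q * (4 * α * x)) ≤ 1 / 2)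
    (hδ1 : 0 < δ1) (hδ1M : 1 ≤ δ1 * (16 * A * K : ℕ))
    (hG2 : ∑ n ∈ Icc 1 N, ‖g n‖ ^ 2 ≤ G2) (hS0 : 0 ≤ S0)
    (hsup : ∀ t : ℝ, ‖∑ n ∈ Icc 1 N, g n * e (n * t)‖ ≤ S0) :
    ∑ k ∈ range A, ‖∑ n ∈ Ioc x1 x, fz g (qf α β n + (a0 + k))‖ ^ 2 ≤
      128 * G2 * (x + 5 * (x * ((A / x1 : ℕ) : ℝ)) / D) +
      64 * A * ((Q : ℝ) * (Q + 1) * (3 * δ1 * S0 * x + 4 * Real.sqrt (G2 / δ1) / x1)) ^ 2 := by
  classical
  set M := 16 * A * K with hM
  have hA1 : 1 ≤ A := hx1.trans hA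
  have hM1 : 1 ≤ M := by omega
  have hM0 : (0 : ℝ) < M := by exact_mod_cast hM1
  have hA0 : (0 : ℝ) < A := by exact_mod_cast hA1
  have hK0 : (0 : ℝ) < K := by exact_mod_cast hK
  have hG20 : 0 ≤ G2 := le_trans (sum_nonneg fun n _ => by positivity) hG2
  have hx0 : (0 : ℝ) < x := by exact_mod_cast (by omega : 0 < x)
  have hα1 : (1 : ℝ) ≤ α := by exact_mod_cast hα
  set δ : ℝ := D ^ 2 / (x * ((A / x1 : ℕ) : ℝ)) + 1 / (16 * A) with hδ
  have hδ0 : 0 < δ := by
    have : 0 < 1 / (16 * (A : ℝ)) := by positivity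
    have : 0 ≤ D ^ 2 / (x * ((A / x1 : ℕ) : ℝ)) := by positivity
    linarith
  set W : ℤ → ℂ := WW α β x1 x M with hW
  set maj : ℕ → Prop := fun h => ∃ q : ℕ, 1 ≤ q ∧ q ≤ Q ∧ ∃ b : ℤ, |(h : ℝ) / M - b / q| ≤ δ with hmaj
  -- expansion
  have hexp : ∀ k ∈ range A, ∑ n ∈ Ioc x1 x, fz g (qf α β n + (a0 + k)) =
      (∑ h ∈ range M, (if maj h then chf g N M h * W h else 0) * e (-(((h : ℤ) : ℝ) * (a0 + k) / M))) +
      ∑ h ∈ range M, (if maj h then 0 else chf g N M h * W h) * e (-(((h : ℤ) : ℝ) * (a0 + k) / M)) := by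
    intro k hk
    rw [mem_range] at hk
    have h1 : ∀ n ∈ Ioc x1 x, fz g (qf α β n + (a0 + k)) = ∑ h ∈ range M, chf g N M h *
        e (-(((qf α β n + (a0 + k) : ℤ) : ℝ) * h / M)) := by
      intro n hn
      have := hval n hn k hk
      rw [ch_inv g N M hg hM1 _ this.1 this.2]
    rw [sum_congr rfl h1, sum_comm, ← sum_add_distrib]
    refine sum_congr rfl fun h _ => ?_
    have h2 : (if maj h then chf g N M h * W h else 0) * e (-(((h : ℤ) : ℝ) * (a0 + k) / M)) +
        (if maj h then 0 else chf g N M h * W h) * e (-(((h : ℤ) : ℝ) * (a0 + k) / M)) =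
        chf g N M h * W h * e (-(((h : ℤ) : ℝ) * (a0 + k) / M)) := by
      split_ifs <;> ring
    rw [h2, hW, WW, mul_sum, sum_mul]
    refine sum_congr rfl fun n _ => ?_
    rw [mul_assoc, ← e_add]
    congr 2
    push_cast
    ring
  -- major part
  have hR : ∑ h ∈ range M, ‖if maj h then chf g N M h * W h else 0‖ ≤
      (Q : ℝ) * (Q + 1) * (3 * δ1 * S0 * x + 4 * Real.sqrt (G2 / δ1) / x1) := by
    have hsub : (range M).filter (fun h => maj h) ⊆ (Icc 1 Q ×ˢ range (Q + 1)).biUnion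
        (fun p : ℕ × ℕ => (range M).filter (fun h : ℕ => |(h : ℝ) / M - ((p.2 : ℤ) : ℝ) / p.1| ≤ δ)) := by
      intro h hh
      rw [mem_filter, mem_range] at hh
      obtain ⟨hhM, q, hq1, hqQ, b, hb⟩ := hh
      have hq0 : (0 : ℝ) < q := by exact_mod_cast hq1
      have hδq : δ * q ≤ 1 / 2 := by
        refine le_trans ?_ hsmall
        have h1 : (q : ℝ) ≤ Q := by exact_mod_cast hqQ
        have h2 : (1 : ℝ) ≤ 4 * α * x := by
          have : (1 : ℝ) ≤ x := by exact_mod_cast (by omega : 1 ≤ x)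
          nlinarith
        have h3 : (q : ℝ) ≤ Q * (4 * α * x) := by
          have : (0 : ℝ) ≤ Q := by positivity
          nlinarith
        gcongr
      have h4 := abs_le.1 hb
      have h5 : (0 : ℝ) ≤ (h : ℝ) / M := by positivity
      have h6 : (h : ℝ) / M < 1 := by
        rw [div_lt_one hM0]; exact_mod_cast hhM
      have hb0 : 0 ≤ b := by
        by_contra hcon
        push Not at hcon
        have h7 : (b : ℝ) ≤ -1 := by exact_mod_cast (by omega : b ≤ -1)
        have h8 : (b : ℝ) / q ≤ -1 / q := by gcongr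
        have h9 : (1 : ℝ) / q ≤ δ := by
          have : -1 / (q : ℝ) = -(1 / q) := by ring
          linarith
        rw [div_le_iff₀ hq0] at h9
        linarith
      have hbq : b ≤ q := by
        by_contra hcon
        push Not at hcon
        have h7 : (q : ℝ) + 1 ≤ b := by exact_mod_cast (by omega : (q : ℤ) + 1 ≤ b)
        have h8 : ((q : ℝ) + 1) / q ≤ b / q := by gcongr
        have h9 : ((q : ℝ) + 1) / q = 1 + 1 / q := by field_simp
        have h10 : (1 : ℝ) / q ≤ δ := by linarith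
        rw [div_le_iff₀ hq0] at h10
        linarith
      rw [mem_biUnion]
      refine ⟨(q, b.toNat), ?_, ?_⟩
      · rw [mem_product, mem_Icc, mem_range]
        exact ⟨⟨hq1, hqQ⟩, by omega⟩
      · rw [mem_filter, mem_range]
        refine ⟨hhM, ?_⟩
        simp only
        rw [Int.toNat_of_nonneg hb0]
        exact hb
    have h1 : ∑ h ∈ range M, ‖if maj h then chf g N M h * W h else 0‖ =
        ∑ h ∈ (range M).filter (fun h => maj h), ‖chf g N M h‖ * ‖W h‖ := by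
      rw [sum_filter]
      refine sum_congr rfl fun h _ => ?_
      split_ifs
      · rw [norm_mul]
      · simp
    rw [h1]
    set Ar : ℕ × ℕ → Finset ℕ := fun p => (range M).filter
      (fun h : ℕ => |(h : ℝ) / M - ((p.2 : ℤ) : ℝ) / p.1| ≤ δ) with hAr
    have hbu : ∀ (T : Finset (ℕ × ℕ)), ∑ h ∈ T.biUnion Ar, ‖chf g N M h‖ * ‖W h‖ ≤
        ∑ p ∈ T, ∑ h ∈ Ar p, ‖chf g N M h‖ * ‖W h‖ := by
      intro T
      induction T using Finset.induction_on with
      | empty => simp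
      | insert p T hp ih =>
        rw [biUnion_insert, sum_insert hp]
        have h2 : ∑ h ∈ Ar p ∪ T.biUnion Ar, ‖chf g N M h‖ * ‖W h‖ ≤
            ∑ h ∈ Ar p, ‖chf g N M h‖ * ‖W h‖ + ∑ h ∈ T.biUnion Ar, ‖chf g N M h‖ * ‖W h‖ := by
          rw [← sum_union_inter]
          have : 0 ≤ ∑ h ∈ Ar p ∩ T.biUnion Ar, ‖chf g N M h‖ * ‖W h‖ :=
            sum_nonneg fun _ _ => by positivity
          linarith
        linarith
    calc ∑ h ∈ (range M).filter (fun h => maj h), ‖chf g N M h‖ * ‖W h‖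
        ≤ ∑ h ∈ (Icc 1 Q ×ˢ range (Q + 1)).biUnion Ar, ‖chf g N M h‖ * ‖W h‖ :=
          sum_le_sum_of_subset_of_nonneg hsub fun _ _ _ => by positivity
      _ ≤ ∑ p ∈ Icc 1 Q ×ˢ range (Q + 1), ∑ h ∈ Ar p, ‖chf g N M h‖ * ‖W h‖ := hbu _
      _ ≤ ∑ p ∈ Icc 1 Q ×ˢ range (Q + 1), (3 * δ1 * S0 * x + 4 * Real.sqrt (G2 / δ1) / x1) := by
          refine sum_le_sum fun p hp => ?_
          rw [mem_product, mem_Icc, mem_range] at hp
          apply one_arc α β x1 x p.1 M N (p.2 : ℤ) g G2 S0 δ δ1 hα hβ hM1 hNM hx1 hx1x hp.1.1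
            (hp.1.2.trans hQx) _ hδ1 hδ1M hG2 hS0 hsup
          refine le_trans ?_ hsmall
          have : (p.1 : ℝ) ≤ Q := by exact_mod_cast hp.1.2
          gcongr
      _ = _ := by
          rw [sum_const, card_product, Nat.card_Icc, card_range, nsmul_eq_mul, Nat.add_sub_cancel]
          push_cast
          ring
  have hmajor := freq_maj M A K hM1 hK (by rw [hM]; nlinarith [Nat.zero_le (A * K)]) (by rw [hM]; nlinarith) a0
    (fun h => if maj h then chf g N M h * W h else 0)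
  -- minor part
  have hminor : ∑ k ∈ range A, ‖∑ h ∈ range M, (if maj h then 0 else chf g N M h * W h) *
        e (-(((h : ℤ) : ℝ) * (a0 + k) / M))‖ ^ 2 ≤ (2 * (M : ℝ) / K) *
      (((32 * (K : ℝ)) * (x + 5 * (x * ((A / x1 : ℕ) : ℝ)) / D)) *
        ∑ h ∈ range M, (if maj h then 0 else ‖chf g N M h‖) ^ 2) := by
    apply freq_min M A K hM1 hK (by rw [hM]; nlinarith [Nat.zero_le (A * K)]) (by rw [hM]; nlinarith) a0
      (fun h => if maj h then 0 else chf g N M h * W h) _ (fun h => ‖W h‖)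
    · intro h
      split_ifs <;> positivity
    · intro h
      exact norm_nonneg _
    · intro h
      simp only [hW]
      rw [WW_per α β x1 x M hM1]
    · intro h _
      split_ifs
      · simp
      · rw [norm_mul]
    · intro h _ hp
      have hnm : ¬ maj h := by
        intro hm
        simp only [if_pos hm] at hp
        exact hp rfl
      have := minor_T α β x1 x A K hα hβ hx1 hx1x hA hK hrange D hD hxY Q hQ (h : ℤ) (by
        rintro ⟨q, hq1, hqQ, b, hb⟩
        apply hnm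
        refine ⟨q, hq1, hqQ, b, ?_⟩
        rw [← hM, ← hδ, Int.cast_natCast] at hb
        exact hb)
      exact this
  have hpar : ∑ h ∈ range M, (if maj h then 0 else ‖chf g N M h‖) ^ 2 ≤ G2 / M := by
    rw [le_div_iff₀ hM0, mul_comm]
    calc (M : ℝ) * ∑ h ∈ range M, (if maj h then 0 else ‖chf g N M h‖) ^ 2
        ≤ M * ∑ h ∈ range M, ‖chf g N M h‖ ^ 2 := by
          gcongr with h _
          split_ifs
          · exact norm_nonneg _
          · exact le_rfl
      _ = ∑ n ∈ Icc 1 N, ‖g n‖ ^ 2 := ch_parseval g N M hNM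
      _ ≤ G2 := hG2
  have hM16 : (M : ℝ) = 16 * A * K := by rw [hM]; push_cast; ring
  calc ∑ k ∈ range A, ‖∑ n ∈ Ioc x1 x, fz g (qf α β n + (a0 + k))‖ ^ 2
      ≤ ∑ k ∈ range A, (2 * ‖∑ h ∈ range M, (if maj h then 0 else chf g N M h * W h) *
          e (-(((h : ℤ) : ℝ) * (a0 + k) / M))‖ ^ 2 +
        2 * ‖∑ h ∈ range M, (if maj h then chf g N M h * W h else 0) *
          e (-(((h : ℤ) : ℝ) * (a0 + k) / M))‖ ^ 2) := by
        refine sum_le_sum fun k hk => ?_
        rw [hexp k hk, add_comm]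
        exact norm_add_sq_le' _ _
    _ = 2 * ∑ k ∈ range A, ‖∑ h ∈ range M, (if maj h then 0 else chf g N M h * W h) *
          e (-(((h : ℤ) : ℝ) * (a0 + k) / M))‖ ^ 2 +
        2 * ∑ k ∈ range A, ‖∑ h ∈ range M, (if maj h then chf g N M h * W h else 0) *
          e (-(((h : ℤ) : ℝ) * (a0 + k) / M))‖ ^ 2 := by
        rw [sum_add_distrib, mul_sum, mul_sum]
    _ ≤ 2 * ((2 * (M : ℝ) / K) * (((32 * (K : ℝ)) * (x + 5 * (x * ((A / x1 : ℕ) : ℝ)) / D)) * (G2 / M))) +
        2 * ((2 * (M : ℝ) / K) * ((Q : ℝ) * (Q + 1) * (3 * δ1 * S0 * x + 4 * Real.sqrt (G2 / δ1) / x1)) ^ 2) := by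
        gcongr
        · refine hminor.trans ?_
          gcongr
        · refine hmajor.trans ?_
          gcongr
    _ = _ := by
        rw [hM16]
        field_simp
        ring

end Pool.Agent.W81.R1
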