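import Pool.Agent.W81.R1.Base

/-!
The window inequality on the frequency side.
-/

set_option autoImplicit false

namespace Pool.Agent.W81.R1

open Finset
open Pool.Agent.H469R2.NK (e norm_e e_add conj_e e_zero kusmin_landau_mono)
open Pool.Agent.H442R2.EHI (sum_e_range e_add_int e_int)

/-- the general bound with absolute values -/
lemma window_abs (M A K : ℕ) (hM : 1 ≤ M) (hK : 1 ≤ K)
    (hAK : 8 * A * K ≤ M) (s : ℤ) (G : ℕ → ℂ) :
    ∑ k ∈ range A, ‖∑ h ∈ range M, G h * e (-(((h : ℤ) : ℝ) * (s + k) / M))‖ ^ 2 ≤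
      (2 * (M : ℝ) / (K : ℝ) ^ 2) *
      ∑ h ∈ range M, ∑ h' ∈ range M, ‖G h‖ * ‖G h'‖ * (rr M K ((h : ℤ) - h') : ℝ) := by
  have h1 := window (range M) (fun h : ℕ => (h : ℤ)) G M A K hM hK hAK s
  refine h1.trans ?_
  apply mul_le_mul_of_nonneg_left _ (by positivity)
  refine (norm_sum_le _ _).trans (sum_le_sum fun h _ => ?_)
  refine (norm_sum_le _ _).trans (sum_le_sum fun h' _ => ?_)
  rw [norm_mul, norm_mul, norm_mul, norm_e, mul_one, RCLike.norm_conj, norm_mul, norm_e, mul_one]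
  simp

theorem freq_maj (M A K : ℕ) (hM : 1 ≤ M) (hK : 1 ≤ K)
    (hAK : 8 * A * K ≤ M) (hKM : K ≤ M) (s : ℤ) (G : ℕ → ℂ) :
    ∑ k ∈ range A, ‖∑ h ∈ range M, G h * e (-(((h : ℤ) : ℝ) * (s + k) / M))‖ ^ 2 ≤
      (2 * (M : ℝ) / K) * (∑ h ∈ range M, ‖G h‖) ^ 2 := by
  have hK0 : (0 : ℝ) < K := by exact_mod_cast hK
  refine (window_abs M A K hM hK hAK s G).trans ?_
  have h1 : ∑ h ∈ range M, ∑ h' ∈ range M, ‖G h‖ * ‖G h'‖ * (rr M K ((h : ℤ) - h') : ℝ) ≤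
      K * (∑ h ∈ range M, ‖G h‖) ^ 2 := by
    rw [sq, sum_mul_sum, mul_sum]
    refine sum_le_sum fun h _ => ?_
    rw [mul_sum]
    refine sum_le_sum fun h' _ => ?_
    rw [mul_comm (K : ℝ)]
    have : (rr M K ((h : ℤ) - h') : ℝ) ≤ K := by exact_mod_cast rr_le M K hKM _
    gcongr
  calc (2 * (M : ℝ) / (K : ℝ) ^ 2) *
      ∑ h ∈ range M, ∑ h' ∈ range M, ‖G h‖ * ‖G h'‖ * (rr M K ((h : ℤ) - h') : ℝ)
      ≤ (2 * (M : ℝ) / (K : ℝ) ^ 2) * (K * (∑ h ∈ range M, ‖G h‖) ^ 2) := by gcongr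
    _ = _ := by field_simp

lemma local_sum (M K : ℕ) (hM : 1 ≤ M) (hKM : 2 * K ≤ M) (w : ℤ → ℝ)
    (hper : ∀ h : ℤ, w (h + M) = w h) (h : ℤ) :
    ∑ h' ∈ range M, w h' ^ 2 * (rr M K (h - h') : ℝ) ≤ K * ∑ k ∈ range (2 * K), w (h - K + k) ^ 2 := by
  classical
  have hperN : ∀ (t : ℕ) (h : ℤ), w (h + t * M) = w h := by
    intro t
    induction t with
    | zero => intro h; simp
    | succ t ih =>
      intro h
      have : h + ((t + 1 : ℕ) : ℤ) * M = (h + t * M) + M := by push_cast; ring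
      rw [this, hper, ih]
  have hperZ : ∀ (t : ℤ) (h : ℤ), w (h + t * M) = w h := by
    intro t h
    obtain ⟨n, rfl | rfl⟩ := t.eq_nat_or_neg
    · exact hperN n h
    · have := hperN n (h + -(n : ℤ) * M)
      rw [← this]
      congr 1
      ring
  have hMz : (0 : ℤ) < M := by exact_mod_cast hM
  have h1 : ∑ h' ∈ range M, w h' ^ 2 * (rr M K (h - h') : ℝ) ≤
      ∑ h' ∈ (range M).filter (fun h' : ℕ => rr M K (h - h') ≠ 0), K * w h' ^ 2 := by
    rw [sum_filter]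
    refine sum_le_sum fun h' _ => ?_
    split_ifs with h2
    · rw [mul_comm]
      have : (rr M K (h - h') : ℝ) ≤ K := by exact_mod_cast rr_le M K (by omega) _
      gcongr
    · push Not at h2
      rw [h2]; simp
  refine h1.trans ?_
  rw [← mul_sum]
  apply mul_le_mul_of_nonneg_left _ (Nat.cast_nonneg _)
  -- injection
  have hmap : ∀ h' ∈ (range M).filter (fun h' : ℕ => rr M K (h - h') ≠ 0),
      ((((h' : ℤ) - h + K) % M).toNat < 2 * K ∧
      w h' = w (h - K + (((((h' : ℤ) - h + K) % M).toNat : ℕ) : ℤ))) := by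
    intro h' hh'
    rw [mem_filter] at hh'
    obtain ⟨_, h3⟩ := hh'
    unfold rr at h3
    rw [card_ne_zero] at h3
    obtain ⟨p, hp⟩ := h3
    rw [mem_filter, mem_product, mem_range, mem_range] at hp
    obtain ⟨⟨a1, a2⟩, t, ht⟩ := hp
    have h4 : (h' : ℤ) - h + K = ((p.2 : ℤ) - p.1 + K) + t * M := by
      have : (p.1 : ℤ) - p.2 - (h - h') = M * t := ht
      linarith
    have h5 : ((h' : ℤ) - h + K) % M = (p.2 : ℤ) - p.1 + K := by
      rw [h4, Int.add_mul_emod_self_right]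
      apply Int.emod_eq_of_lt <;> omega
    rw [h5]
    constructor
    · omega
    · have h6 : ((((p.2 : ℤ) - p.1 + K).toNat : ℕ) : ℤ) = (p.2 : ℤ) - p.1 + K :=
        Int.toNat_of_nonneg (by omega)
      rw [h6]
      have h7 : (h' : ℤ) = (h - K + ((p.2 : ℤ) - p.1 + K)) + t * M := by linarith
      rw [h7, hperZ]
  calc ∑ h' ∈ (range M).filter (fun h' : ℕ => rr M K (h - h') ≠ 0), w h' ^ 2
      = ∑ h' ∈ (range M).filter (fun h' : ℕ => rr M K (h - h') ≠ 0),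
        w (h - K + (((((h' : ℤ) - h + K) % M).toNat : ℕ) : ℤ)) ^ 2 := by
        refine sum_congr rfl fun h' hh' => ?_
        rw [← (hmap h' hh').2]
    _ = ∑ k ∈ ((range M).filter (fun h' : ℕ => rr M K (h - h') ≠ 0)).image
          (fun h' : ℕ => (((h' : ℤ) - h + K) % M).toNat), w (h - K + k) ^ 2 := by
        rw [sum_image]
        intro a ha b hb hab
        rw [mem_coe, mem_filter, mem_range] at ha hb
        simp only at hab
        have e1 : ((a : ℤ) - h + K) % M = ((b : ℤ) - h + K) % M := by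
          have p1 := Int.emod_nonneg ((a : ℤ) - h + K) (by omega : (M : ℤ) ≠ 0)
          have p2 := Int.emod_nonneg ((b : ℤ) - h + K) (by omega : (M : ℤ) ≠ 0)
          rw [← Int.toNat_of_nonneg p1, ← Int.toNat_of_nonneg p2, hab]
        have e3 : (M : ℤ) ∣ ((a : ℤ) - h + K) - ((b : ℤ) - h + K) := Int.ModEq.dvd e1.symm
        obtain ⟨t, ht⟩ := e3
        have e4 : t = 0 := by
          by_contra hne
          rcases lt_or_gt_of_ne hne with h | h
          · have : (M : ℤ) * t ≤ -M := by nlinarith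
            omega
          · have : (M : ℤ) ≤ M * t := by nlinarith
            omega
        rw [e4, mul_zero] at ht
        omega
    _ ≤ ∑ k ∈ range (2 * K), w (h - K + k) ^ 2 := by
        apply sum_le_sum_of_subset_of_nonneg
        · intro k hk
          rw [mem_image] at hk
          obtain ⟨h', hh', rfl⟩ := hk
          rw [mem_range]
          exact (hmap h' hh').1
        · intro k _ _; positivity

theorem freq_min (M A K : ℕ) (hM : 1 ≤ M) (hK : 1 ≤ K)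
    (hAK : 8 * A * K ≤ M) (hKM : 2 * K ≤ M) (s : ℤ) (G : ℕ → ℂ) (p : ℕ → ℝ) (w : ℤ → ℝ)
    (hp : ∀ h, 0 ≤ p h) (hw : ∀ h, 0 ≤ w h)
    (hper : ∀ h : ℤ, w (h + M) = w h) (hG : ∀ h ∈ range M, ‖G h‖ ≤ p h * w h) (T : ℝ)
    (hT : ∀ h ∈ range M, p h ≠ 0 → ∑ k ∈ range (2 * K), w ((h : ℤ) - K + k) ^ 2 ≤ T) :
    ∑ k ∈ range A, ‖∑ h ∈ range M, G h * e (-(((h : ℤ) : ℝ) * (s + k) / M))‖ ^ 2 ≤
      (2 * (M : ℝ) / K) * (T * ∑ h ∈ range M, p h ^ 2) := by
  have hK0 : (0 : ℝ) < K := by exact_mod_cast hK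
  refine (window_abs M A K hM hK hAK s G).trans ?_
  have h1 : ∑ h ∈ range M, ∑ h' ∈ range M, ‖G h‖ * ‖G h'‖ * (rr M K ((h : ℤ) - h') : ℝ) ≤
      ∑ h ∈ range M, p h ^ 2 * ∑ h' ∈ range M, w h' ^ 2 * (rr M K ((h : ℤ) - h') : ℝ) := by
    have h2 : ∑ h ∈ range M, ∑ h' ∈ range M, ‖G h‖ * ‖G h'‖ * (rr M K ((h : ℤ) - h') : ℝ) ≤
        ∑ h ∈ range M, ∑ h' ∈ range M, ((p h ^ 2 * (w h' ^ 2 * (rr M K ((h : ℤ) - h') : ℝ))) / 2 +
          (p h' ^ 2 * (w h ^ 2 * (rr M K ((h' : ℤ) - h) : ℝ))) / 2) := by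
      refine sum_le_sum fun h hh => sum_le_sum fun h' hh' => ?_
      have e1 : (rr M K ((h' : ℤ) - h) : ℝ) = (rr M K ((h : ℤ) - h') : ℝ) := by
        rw [← rr_neg]; congr 2; ring
      rw [e1]
      have e2 := hG h hh
      have e3 := hG h' hh'
      have e4 : (0 : ℝ) ≤ (rr M K ((h : ℤ) - h') : ℝ) := Nat.cast_nonneg _
      have e5 : ‖G h‖ * ‖G h'‖ ≤ (p h * w h) * (p h' * w h') :=
        mul_le_mul e2 e3 (norm_nonneg _) (mul_nonneg (hp _) (hw _))
      have e6 : (p h * w h) * (p h' * w h') ≤ (p h ^ 2 * w h' ^ 2) / 2 + (p h' ^ 2 * w h ^ 2) / 2 := by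
        nlinarith [sq_nonneg (p h * w h' - p h' * w h)]
      calc ‖G h‖ * ‖G h'‖ * (rr M K ((h : ℤ) - h') : ℝ)
          ≤ ((p h ^ 2 * w h' ^ 2) / 2 + (p h' ^ 2 * w h ^ 2) / 2) * (rr M K ((h : ℤ) - h') : ℝ) :=
            mul_le_mul_of_nonneg_right (e5.trans e6) e4
        _ = _ := by ring
    refine h2.trans (le_of_eq ?_)
    simp only [sum_add_distrib, ← sum_div]
    have h3 : ∑ h ∈ range M, ∑ h' ∈ range M, p h' ^ 2 * (w h ^ 2 * (rr M K ((h' : ℤ) - h) : ℝ)) =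
        ∑ h ∈ range M, ∑ h' ∈ range M, p h ^ 2 * (w h' ^ 2 * (rr M K ((h : ℤ) - h') : ℝ)) := by
      rw [sum_comm]
    rw [h3]
    simp only [← mul_sum]
    ring
  have h4 : ∑ h ∈ range M, p h ^ 2 * ∑ h' ∈ range M, w h' ^ 2 * (rr M K ((h : ℤ) - h') : ℝ) ≤
      K * (T * ∑ h ∈ range M, p h ^ 2) := by
    rw [← mul_assoc, mul_sum]
    refine sum_le_sum fun h hh => ?_
    by_cases hph : p h = 0
    · rw [hph]; simp
    · have h5 := local_sum M K hM hKM w hper h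
      have h6 := hT h hh hph
      calc p h ^ 2 * ∑ h' ∈ range M, w h' ^ 2 * (rr M K ((h : ℤ) - h') : ℝ)
          ≤ p h ^ 2 * (K * ∑ k ∈ range (2 * K), w ((h : ℤ) - K + k) ^ 2) := by gcongr
        _ ≤ p h ^ 2 * (K * T) := by gcongr
        _ = _ := by ring
  calc (2 * (M : ℝ) / (K : ℝ) ^ 2) *
      ∑ h ∈ range M, ∑ h' ∈ range M, ‖G h‖ * ‖G h'‖ * (rr M K ((h : ℤ) - h') : ℝ)
      ≤ (2 * (M : ℝ) / (K : ℝ) ^ 2) * (K * (T * ∑ h ∈ range M, p h ^ 2)) := by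
        gcongr
        exact h1.trans h4
    _ = _ := by field_simp

end Pool.Agent.W81.R1
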