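import Pool.Agent.W81.R1.Log
import Pool.Agent.H373R2.T7.SupE2

/-!
The function `log` on the primes minus its sieve model: exponential sums and size.
-/

set_option autoImplicit false

namespace Pool.Agent.W81.R1

open Finset Filter
open Pool.Agent.H469R2.NK (e norm_e)
open Pool.Agent.H442R2.EHI (evt_log_pow evt_log_ge)
open Pool.Agent.H300R2.BH (chf fz)
open Pool.Agent.H373R2.T7 (lamz Vz pz lamz_nonneg Vz_pos Vz_inv_small sup_diff)
open Pool.Agent.H807R2.Dav (ee)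

/-- `log` on the primes minus the sieve model -/
noncomputable def gt (z m : ℕ) : ℝ := (if m.Prime then Real.log m else 0) - lamz z m

/-- extension to the integers -/
noncomputable def gI (z : ℕ) (m : ℤ) : ℝ := if 1 ≤ m then gt z m.toNat else 0

lemma ee_eq (x : ℝ) : ee x = e x := by
  unfold ee e
  congr 1
  push_cast
  ring

lemma theta_lam (N : ℕ) : ∑ n ∈ Icc 1 N, |ArithmeticFunction.vonMangoldt n -
    (if n.Prime then Real.log n else 0)| ≤ 2 * Real.sqrt N * Real.log N := by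
  rcases Nat.eq_zero_or_pos N with h0 | h0
  · subst h0; simp
  have h1 : ∀ n ∈ Icc 1 N, |ArithmeticFunction.vonMangoldt n -
      (if n.Prime then Real.log n else 0)| = ArithmeticFunction.vonMangoldt n -
      (if n.Prime then Real.log n else 0) := by
    intro n _
    apply abs_of_nonneg
    split_ifs with hp
    · rw [ArithmeticFunction.vonMangoldt_apply_prime hp]; simp
    · rw [sub_zero]; exact ArithmeticFunction.vonMangoldt_nonneg
  rw [sum_congr rfl h1, sum_sub_distrib, ← sum_filter]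
  have hI : Icc 1 N = Ioc 0 N := by ext k; simp only [mem_Icc, mem_Ioc]; omega
  have h2 : ∑ n ∈ Icc 1 N, ArithmeticFunction.vonMangoldt n = Chebyshev.psi (N : ℝ) := by
    unfold Chebyshev.psi
    rw [Nat.floor_natCast, hI]
  have h3 : ∑ n ∈ (Icc 1 N).filter Nat.Prime, Real.log n = Chebyshev.theta (N : ℝ) := by
    unfold Chebyshev.theta
    rw [Nat.floor_natCast, hI]
  rw [h2, h3]
  exact Chebyshev.psi_sub_theta_le (by exact_mod_cast h0)

lemma lamz_le' (z n : ℕ) : lamz z n ≤ (Vz z)⁻¹ := by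
  unfold lamz
  split_ifs
  · exact le_rfl
  · exact (inv_pos.2 (Vz_pos z)).le

/-- exponential sums -/
theorem sup_gt (U : ℕ) : ∃ B : ℕ, ∀ E : ℕ, ∃ N0 : ℕ, ∀ N : ℕ, N0 ≤ N → ∀ z : ℕ, Real.log N ^ B ≤ z →
    (z : ℝ) ≤ Real.log N ^ E → ∀ t : ℝ,
    ‖∑ n ∈ Icc 1 N, ((gt z n : ℝ) : ℂ) * e (n * t)‖ ≤ N / Real.log N ^ U := by
  obtain ⟨B, hB⟩ := sup_diff (U + 1)
  refine ⟨B, fun E => ?_⟩
  obtain ⟨N0, h0⟩ := hB E
  have hev : ∀ᶠ N : ℕ in atTop, N0 ≤ N ∧ 4 ≤ Real.log N ∧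
      Real.log N ^ (U + 3) ≤ (N : ℝ) ^ (1 / 2 : ℝ) ∧ 1 ≤ N := by
    filter_upwards [eventually_ge_atTop N0, evt_log_ge 4, evt_log_pow (U + 3) (1 / 2) (by norm_num),
      eventually_ge_atTop 1] with N h1 h2 h3 h4
    exact ⟨h1, h2, h3, h4⟩
  obtain ⟨N1, hN1⟩ := eventually_atTop.mp hev
  refine ⟨N1, fun N hN z hz hzE t => ?_⟩
  obtain ⟨hN0, hL, hpow, hNp⟩ := hN1 N hN
  have key := h0 N hN0 z hz hzE t
  set L := Real.log N with hLd
  have hL0 : 0 < L := by linarith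
  have hNr : (0 : ℝ) < N := by exact_mod_cast hNp
  have h1 : ∑ n ∈ Icc 1 N, ((gt z n : ℝ) : ℂ) * e (n * t) =
      ∑ n ∈ Icc 1 N, ((ArithmeticFunction.vonMangoldt n - lamz z n : ℝ) : ℂ) * ee ((n : ℝ) * t) -
      ∑ n ∈ Icc 1 N, ((ArithmeticFunction.vonMangoldt n - (if n.Prime then Real.log n else 0) : ℝ) : ℂ) *
        e (n * t) := by
    rw [← sum_sub_distrib]
    refine sum_congr rfl fun n _ => ?_
    rw [ee_eq, ← sub_mul, ← Complex.ofReal_sub]
    congr 2
    unfold gt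
    ring
  rw [h1]
  refine (norm_sub_le _ _).trans ?_
  have h2 : ‖∑ n ∈ Icc 1 N, ((ArithmeticFunction.vonMangoldt n - (if n.Prime then Real.log n else 0) : ℝ) : ℂ) *
        e (n * t)‖ ≤ 2 * Real.sqrt N * L := by
    refine (norm_sum_le _ _).trans (le_trans (le_of_eq ?_) (theta_lam N))
    refine sum_congr rfl fun n _ => ?_
    rw [norm_mul, norm_e, mul_one, Complex.norm_real, Real.norm_eq_abs]
  have hs : Real.sqrt N = (N : ℝ) ^ (1 / 2 : ℝ) := Real.sqrt_eq_rpow _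
  have hss : Real.sqrt N * Real.sqrt N = N := Real.mul_self_sqrt hNr.le
  have h3 : 2 * Real.sqrt N * L ≤ N / L ^ U / 2 := by
    rw [div_div, le_div_iff₀ (by positivity)]
    calc 2 * Real.sqrt N * L * (L ^ U * 2) = Real.sqrt N * (4 * L ^ (U + 1)) := by ring
      _ ≤ Real.sqrt N * (L ^ 2 * L ^ (U + 1)) := by
          gcongr
          nlinarith
      _ = Real.sqrt N * L ^ (U + 3) := by ring
      _ ≤ Real.sqrt N * Real.sqrt N := by
          gcongr
          rw [hs]; exact hpow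
      _ = N := hss
  have h4 : (N : ℝ) / L ^ (U + 1) ≤ N / L ^ U / 2 := by
    rw [div_div, div_le_div_iff₀ (by positivity) (by positivity), pow_succ]
    have h5 : 0 < (N : ℝ) * L ^ U := by positivity
    nlinarith
  calc _ ≤ (N : ℝ) / L ^ (U + 1) + 2 * Real.sqrt N * L := add_le_add key h2
    _ ≤ N / L ^ U / 2 + N / L ^ U / 2 := add_le_add h4 h3
    _ = _ := by ring

/-- pointwise bound -/
theorem gt_abs (E : ℕ) : ∃ N0 : ℕ, ∀ N : ℕ, N0 ≤ N → ∀ z : ℕ, 1 ≤ z → (z : ℝ) ≤ Real.log N ^ E →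
    ∀ n : ℕ, 1 ≤ n → n ≤ N → |gt z n| ≤ Real.log N := by
  obtain ⟨N0, h0⟩ := Vz_inv_small E
  refine ⟨N0, fun N hN z hz hzE n hn hnN => ?_⟩
  have h1 := h0 N hN z hz hzE
  have h2 := lamz_le' z n
  have h3 := lamz_nonneg z n
  have h4 : Real.log n ≤ Real.log N := Real.log_le_log (by exact_mod_cast hn) (by exact_mod_cast hnN)
  have h5 : 0 ≤ Real.log n := Real.log_natCast_nonneg n
  unfold gt
  rw [abs_le]
  split_ifs <;> constructor <;> linarith

end Pool.Agent.W81.R1
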